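import Pool.Agent.MP_66cee2_co.Q.Spec
import Pool.Agent.MP_98f34a_gt.H36.Brouwer

/-
Row Br: a common zero in the cylinder.
-/

namespace Pool.Agent.MP_66cee2_co.Q

open Set Metric
open scoped RealInnerProductSpace

namespace Brx

theorem coord (a c : ℝ) (h : max 0 (min 1 (a + c)) = a) (h0 : a = 0 → 0 < c)
    (h1 : a = 1 → c < 0) : c = 0 := by
  rcases le_total 1 (a + c) with h3 | h3
  · rw [min_eq_left h3, max_eq_right zero_le_one] at h
    have := h1 h.symm
    linarith
  · rw [min_eq_right h3] at h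
    rcases le_total 0 (a + c) with h4 | h4
    · rw [max_eq_right h4] at h
      linarith
    · rw [max_eq_left h4] at h
      have := h0 h.symm
      linarith

variable {F : Type} [NormedAddCommGroup F] [InnerProductSpace ℝ F]

theorem norm_ret (w : F) : ‖(max 1 ‖w‖)⁻¹ • w‖ ≤ 1 := by
  have hm : 0 < max 1 ‖w‖ := lt_of_lt_of_le one_pos (le_max_left _ _)
  rw [norm_smul, Real.norm_eq_abs, abs_of_pos (inv_pos.2 hm), inv_mul_le_iff₀ hm, mul_one]
  exact le_max_right _ _

theorem vec (x v : F) (h : (max 1 ‖x - v‖)⁻¹ • (x - v) = x) (h1 : ‖x‖ = 1 → 0 ≤ ⟪v, x⟫) :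
    v = 0 := by
  have hm : 0 < max 1 ‖x - v‖ := lt_of_lt_of_le one_pos (le_max_left _ _)
  have e : x - v = max 1 ‖x - v‖ • x := (inv_smul_eq_iff₀ hm.ne').1 h
  rcases le_or_gt ‖x - v‖ 1 with k | k
  · rw [max_eq_left k, one_smul] at e
    exact sub_eq_self.1 e
  · rw [max_eq_right k.le] at e hm
    have n1 : ‖x‖ = 1 := by
      have := congrArg norm e
      rw [norm_smul, Real.norm_eq_abs, abs_of_pos hm] at this
      exact (mul_eq_left₀ hm.ne').1 this.symm
    have h2 := h1 n1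
    have h3 := congrArg (fun y => ⟪y, x⟫) e
    simp only [inner_sub_left, real_inner_smul_left, real_inner_self_eq_norm_sq, n1] at h3
    linarith

end Brx

theorem sBr : SBr := by
  intro F _ _ _ G g hG hg h1 h2 h3
  let r : F × ℝ → F × ℝ := fun p =>
    ((max 1 ‖p.1 - G p‖)⁻¹ • (p.1 - G p), max 0 (min 1 (p.2 + g p)))
  have hr : Continuous r := by
    have c1 : Continuous fun p : F × ℝ => p.1 - G p := continuous_fst.sub hG
    refine Continuous.prodMk (Continuous.smul ((continuous_const.max c1.norm).inv₀ fun p => ?_) c1)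
      (continuous_const.max (continuous_const.min (continuous_snd.add hg)))
    exact (lt_of_lt_of_le one_pos (le_max_left _ _)).ne'
  have hc : ∀ p, r p ∈ Cyl F := fun p =>
    ⟨Brx.norm_ret _, le_max_left _ _, max_le zero_le_one (min_le_left _ _)⟩
  let e := WithLp.prodContinuousLinearEquiv 2 ℝ F ℝ
  obtain ⟨w, hw⟩ := Pool.Agent.MP_98f34a_gt.H36.brouwer_euclid (E := WithLp 2 (F × ℝ))
    (fun y => e.symm (r (e y))) (e.symm.continuous.comp (hr.comp e.continuous))
    (‖(e.symm : (F × ℝ) →L[ℝ] WithLp 2 (F × ℝ))‖ * 1) fun w =>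
      (e.symm : (F × ℝ) →L[ℝ] WithLp 2 (F × ℝ)).le_opNorm_of_le (by
        obtain ⟨a, b, c⟩ := hc (e w)
        exact norm_prod_le_iff.2 ⟨a, by rw [Real.norm_eq_abs, abs_of_nonneg b]; exact c⟩)
  have hp : r (e w) = e w := e.symm_apply_eq.1 hw
  have hm : e w ∈ Cyl F := hp ▸ hc (e w)
  exact ⟨e w, hm, Brx.vec _ _ (congrArg Prod.fst hp) (h1 _ hm),
    Brx.coord _ _ (congrArg Prod.snd hp) (h2 _ hm) (h3 _ hm)⟩

end Pool.Agent.MP_66cee2_co.Q
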