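import Pool.Agent.MP_66cee2_co.Q.Spec

/-
Row Gen: general position with respect to a finite set.
-/

namespace Pool.Agent.MP_66cee2_co.Q

open Set Metric Module

theorem sGen : SGen := by
  intro F _ _ _ C k hk
  have h : ∀ T ∈ {T : Finset F | T ⊆ C ∧ T.card ≤ k},
      IsOpen (Submodule.span ℝ (T : Set F) : Set F)ᶜ ∧
        Dense (Submodule.span ℝ (T : Set F) : Set F)ᶜ := by
    intro T hT
    refine ⟨(Submodule.closed_of_finiteDimensional _).isOpen_compl, ?_⟩
    rw [← interior_eq_empty_iff_dense_compl]
    by_contra h0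
    have h1 := Submodule.eq_top_of_nonempty_interior' _ (nonempty_iff_ne_empty.2 h0)
    have h2 : finrank ℝ (Submodule.span ℝ (T : Set F)) ≤ T.card := finrank_span_finset_le_card T
    rw [h1, finrank_top] at h2
    have := hT.2
    omega
  have hf : {T : Finset F | T ⊆ C ∧ T.card ≤ k}.Finite :=
    C.powerset.finite_toSet.subset fun T hT => Finset.mem_coe.2 (Finset.mem_powerset.2 hT.1)
  have : CompleteSpace F := FiniteDimensional.complete ℝ F
  refine (dense_biInter_of_isOpen (fun T hT => (h T hT).1) hf.countable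
    fun T hT => (h T hT).2).mono fun c hc T h1 h2 => ?_
  exact mem_iInter₂.1 hc T ⟨h1, h2⟩

end Pool.Agent.MP_66cee2_co.Q
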