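import Pool.Agent.MP_66cee2_co.Q.Spec
import Pool.Agent.MP_66cee2_co.H31.Cut

/-
A high level set joins the two ends of the cylinder.
-/

namespace Pool.Agent.MP_66cee2_co.Q

open Set Metric Module
open scoped RealInnerProductSpace

theorem leb_cyl_compact (F : Type) [NormedAddCommGroup F] [InnerProductSpace ℝ F]
    [FiniteDimensional ℝ F] : IsCompact (Cyl F) := by
  have : Cyl F = closedBall (0 : F) 1 ×ˢ Icc (0 : ℝ) 1 := by
    ext p
    simp [Cyl]
  rw [this]
  exact (isCompact_closedBall (0 : F) 1).prod isCompact_Icc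

theorem sLeb (h1 : SBr) (h2 : SGen) (h3 : SPiece) : SLeb := by
  intro F _ _ _ s r hs hc hr hS
  classical
  by_contra hno
  obtain ⟨g, g1, g2, g3, g4⟩ := H31.cut (Cyl F ∩ {p | s + 1 ≤ r p}) {p : F × ℝ | p.2 = 0}
    {p : F × ℝ | p.2 = 1} ((leb_cyl_compact F).inter_right (hc _))
    (isClosed_eq continuous_snd continuous_const) (isClosed_eq continuous_snd continuous_const)
    (disjoint_left.2 fun p (a : p.2 = 0) (b : p.2 = 1) => by rw [a] at b; exact zero_ne_one b)
    fun S hSZ hp ⟨p, a1, a2⟩ ⟨q, b1, b2⟩ => hno ⟨S, fun x hx => (hSZ hx).1, hp,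
      fun x hx => (hSZ hx).2, p, a1, q, b1, a2, b2⟩
  have key : ∀ k : ℕ, k ≤ s → ∃ (C : Finset F) (G : F × ℝ → F), Continuous G ∧
      (∀ p, ∃ T ⊆ C, T.card ≤ k ∧ G p ∈ Submodule.span ℝ (T : Set F)) ∧
      (∀ p, ‖p.1‖ = 1 → 0 ≤ ⟪G p, p.1⟫) ∧
      ∀ p ∈ Cyl F, g p = 0 → G p = 0 → r p ≤ s - k := by
    intro k
    induction k with
    | zero =>
      intro _
      refine ⟨∅, fun _ => 0, continuous_const,
        fun p => ⟨∅, Finset.Subset.refl _, le_rfl, Submodule.zero_mem _⟩,
        fun p _ => by simp, fun p hp h0 _ => ?_⟩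
      by_contra hlt
      exact g2 p ⟨hp, show s + 1 ≤ r p by omega⟩ h0
    | succ k ih =>
      intro hk
      obtain ⟨C, G, a1, a2, a3, a4⟩ := ih (by omega)
      obtain ⟨C₁, h, b1, b2, b3, b4, b5⟩ := h3 F
        (((Cyl F ∩ {p | g p = 0}) ∩ {p | G p = 0}) ∩ {p | s - k ≤ r p}) _
        ((((leb_cyl_compact F).inter_right (isClosed_eq g1 continuous_const)).inter_right
          (isClosed_eq a1 continuous_const)).inter_right (hc _))
        (h2 F C k (by omega))
        (fun c hc' e => hc' ∅ (Finset.empty_subset _) (by simp) (e ▸ Submodule.zero_mem _))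
        fun S hSZ hp => hS (s - k) S (fun x hx => (hSZ hx).1.1.1) hp fun x hx =>
          le_antisymm (a4 x (hSZ hx).1.1.1 (hSZ hx).1.1.2 (hSZ hx).1.2) (hSZ hx).2
      refine ⟨C ∪ C₁, fun p => G p + h p, a1.add b1, fun p => ?_, fun p hp => ?_,
        fun p hp h0 hG => ?_⟩
      · obtain ⟨T, t1, t2, t3⟩ := a2 p
        rcases b4 p with e | ⟨c, c1, t, -, e⟩
        · exact ⟨T, t1.trans Finset.subset_union_left, by omega, by simpa [e] using t3⟩
        · refine ⟨insert c T, Finset.insert_subset (Finset.mem_union_right _ c1)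
            (t1.trans Finset.subset_union_left), (Finset.card_insert_le c T).trans (by omega), ?_⟩
          refine Submodule.add_mem _ (Submodule.span_mono (by simp) t3) ?_
          rw [e]
          exact Submodule.smul_mem _ _ (Submodule.subset_span (by simp))
      · rw [inner_add_left]
        exact add_nonneg (a3 p hp) (b5 p hp)
      · have hG' : G p + h p = 0 := hG
        obtain ⟨T, t1, t2, t3⟩ := a2 p
        rcases b4 p with e | ⟨c, c1, t, t0, e⟩
        · rw [e, add_zero] at hG'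
          by_contra hlt
          exact b3 p ⟨⟨⟨hp, h0⟩, hG'⟩, show s - k ≤ r p by omega⟩ e
        · refine absurd ?_ (b2 c c1 T t1 t2)
          have : c = (-t⁻¹) • G p := by
            rw [eq_neg_of_add_eq_zero_left hG', e, smul_neg, neg_smul, neg_neg, smul_smul,
              inv_mul_cancel₀ t0.ne', one_smul]
          rw [this]
          exact Submodule.smul_mem _ _ t3
  obtain ⟨C, G, a1, -, a3, a4⟩ := key s le_rfl
  obtain ⟨p, hp, p1, p2⟩ := h1 F G g a1 g1 (fun p _ => a3 p) (fun p _ => g3 p) fun p _ => g4 p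
  have := a4 p hp p2 p1
  have := hr p
  omega

end Pool.Agent.MP_66cee2_co.Q
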