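import Pool.Agent.MP_66cee2_co.Q.Spec
import Pool.Agent.MP_66cee2_co.H31.Cut

/-
A continuous field with finitely many directions on a compact set.
-/

namespace Pool.Agent.MP_66cee2_co.Q

open Set Metric Module Filter Topology
open scoped RealInnerProductSpace

namespace PieceX

variable {F : Type} [NormedAddCommGroup F] [InnerProductSpace ℝ F]

/-- a field with finitely many directions that does not vanish on `Y`. -/
def Good (A : Set F) (Y : Set (F × ℝ)) : Prop :=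
  ∃ (C : Finset F) (h : F × ℝ → F), Continuous h ∧ (∀ c ∈ C, c ∈ A) ∧ (∀ p ∈ Y, h p ≠ 0) ∧
    (∀ p, h p = 0 ∨ ∃ c ∈ C, ∃ t : ℝ, 0 < t ∧ h p = t • c) ∧
    ∀ p, ‖p.1‖ = 1 → 0 ≤ ⟪h p, p.1⟫

/-- `Y` lies in a good clopen part of `Z`. -/
def Par (A : Set F) (Z Y : Set (F × ℝ)) : Prop :=
  ∃ g : F × ℝ → ℝ, Continuous g ∧ (∀ x ∈ Z, g x ≠ 0) ∧ (∀ x ∈ Y, 0 < g x) ∧
    Good A {x | x ∈ Z ∧ 0 < g x}

theorem par_empty (A : Set F) (Z : Set (F × ℝ)) : Par A Z ∅ :=
  ⟨fun _ => -1, continuous_const, fun _ _ => by norm_num, fun _ h => h.elim, ∅, fun _ => 0,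
    continuous_const, fun _ h => absurd h (Finset.notMem_empty _),
    fun _ h => absurd h.2 (by norm_num), fun _ => Or.inl rfl, fun _ _ => by simp⟩

theorem par_union {A : Set F} {Z s t : Set (F × ℝ)} (hs : Par A Z s) (ht : Par A Z t) :
    Par A Z (s ∪ t) := by
  classical
  obtain ⟨g, g1, g2, g3, C, h, h1, h2, h3, h4, h5⟩ := hs
  obtain ⟨g', g1', g2', g3', C', h', h1', h2', h3', h4', h5'⟩ := ht
  have ep : ∀ p, 0 < g p → max (g p) 0 • h p + max (-g p) 0 • h' p = g p • h p := fun p hp => by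
    rw [max_eq_left hp.le, max_eq_right (by linarith), zero_smul, add_zero]
  have en : ∀ p, g p ≤ 0 → max (g p) 0 • h p + max (-g p) 0 • h' p = (-g p) • h' p :=
    fun p hp => by rw [max_eq_right hp, max_eq_left (by linarith), zero_smul, zero_add]
  refine ⟨fun x => max (g x) (g' x), g1.max g1', fun x hx => ?_, ?_, C ∪ C',
    fun p => max (g p) 0 • h p + max (-g p) 0 • h' p, by fun_prop, fun c hc => ?_, ?_,
    fun p => ?_, fun p hp => ?_⟩
  · rcases max_choice (g x) (g' x) with e | e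
    · exact fun h0 => g2 x hx (e.symm.trans h0)
    · exact fun h0 => g2' x hx (e.symm.trans h0)
  · rintro x (hx | hx)
    · exact lt_max_of_lt_left (g3 x hx)
    · exact lt_max_of_lt_right (g3' x hx)
  · rcases Finset.mem_union.1 hc with hc | hc
    · exact h2 c hc
    · exact h2' c hc
  · rintro p ⟨hp, hm⟩
    rcases lt_or_gt_of_ne (g2 p hp) with hn | hn
    · have hq : 0 < g' p := (lt_max_iff.1 hm).resolve_left (by linarith)
      exact (en p hn.le).trans_ne (smul_ne_zero (by linarith) (h3' p ⟨hp, hq⟩))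
    · exact (ep p hn).trans_ne (smul_ne_zero hn.ne' (h3 p ⟨hp, hn⟩))
  · rcases lt_trichotomy (g p) 0 with hn | hn | hn
    · rcases h4' p with e | ⟨c, hc, t, ht, e⟩
      · exact Or.inl ((en p hn.le).trans (by rw [e, smul_zero]))
      · exact Or.inr ⟨c, Finset.mem_union_right _ hc, -g p * t, mul_pos (by linarith) ht,
          (en p hn.le).trans (by rw [e, smul_smul])⟩
    · exact Or.inl ((en p hn.le).trans (by rw [hn, neg_zero, zero_smul]))
    · rcases h4 p with e | ⟨c, hc, t, ht, e⟩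
      · exact Or.inl ((ep p hn).trans (by rw [e, smul_zero]))
      · exact Or.inr ⟨c, Finset.mem_union_left _ hc, g p * t, mul_pos hn ht,
          (ep p hn).trans (by rw [e, smul_smul])⟩
  · rw [inner_add_left, real_inner_smul_left, real_inner_smul_left]
    exact add_nonneg (mul_nonneg (le_max_right _ _) (h5 p hp))
      (mul_nonneg (le_max_right _ _) (h5' p hp))

theorem exists_dir {A : Set F} {Z : Set (F × ℝ)} (hZ : IsCompact Z) (hA : Dense A)
    (hS : ∀ S ⊆ Z, IsPreconnected S → ∀ p ∈ S, ∀ q ∈ S, ‖p.1‖ = 1 → ‖q.1‖ = 1 → 0 < ⟪p.1, q.1⟫)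
    (z : F × ℝ) : ∃ c ∈ A, ∀ S ⊆ Z, IsPreconnected S → z ∈ S → ∀ q ∈ S, ‖q.1‖ = 1 →
      0 < ⟪c, q.1⟫ := by
  have k1 : closure (connectedComponentIn Z z) ⊆ Z :=
    closure_minimal (connectedComponentIn_subset Z z) hZ.isClosed
  have k2 : IsPreconnected (closure (connectedComponentIn Z z)) :=
    isPreconnected_connectedComponentIn.closure
  have k3 : IsCompact (closure (connectedComponentIn Z z) ∩ {p | ‖p.1‖ = 1}) :=
    (hZ.of_isClosed_subset isClosed_closure k1).inter_right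
      (isClosed_eq (by fun_prop) continuous_const)
  have k4 : ∀ S ⊆ Z, IsPreconnected S → z ∈ S → ∀ q ∈ S, ‖q.1‖ = 1 →
      q ∈ closure (connectedComponentIn Z z) ∩ {p | ‖p.1‖ = 1} := fun S h1 h2 h3 q hq h4 =>
    ⟨subset_closure (h2.subset_connectedComponentIn h3 h1 hq), h4⟩
  rcases (closure (connectedComponentIn Z z) ∩ {p | ‖p.1‖ = 1}).eq_empty_or_nonempty with e | e
  · obtain ⟨c, hc⟩ := hA.nonempty
    exact ⟨c, hc, fun S h1 h2 h3 q hq h4 => absurd (k4 S h1 h2 h3 q hq h4) (e ▸ notMem_empty q)⟩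
  · obtain ⟨p, hp⟩ := id e
    obtain ⟨m, hm, hmin⟩ := k3.exists_isMinOn e (f := fun q => ⟪p.1, q.1⟫)
      (Continuous.continuousOn (by fun_prop))
    have hκ : 0 < ⟪p.1, m.1⟫ := hS _ k1 k2 p hp.1 m hm.1 hp.2 hm.2
    obtain ⟨c, hc, hd⟩ := hA.exists_dist_lt p.1 hκ
    refine ⟨c, hc, fun S h1 h2 h3 q hq h4 => ?_⟩
    have h5 : ⟪p.1, m.1⟫ ≤ ⟪p.1, q.1⟫ := hmin (k4 S h1 h2 h3 q hq h4)
    have h6 := real_inner_le_norm (p.1 - c) q.1
    rw [inner_sub_left, h4, mul_one, ← dist_eq_norm] at h6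
    linarith

theorem par_loc {A : Set F} {Z : Set (F × ℝ)} (hZ : IsCompact Z) (hA : Dense A)
    (h0 : ∀ c ∈ A, c ≠ 0)
    (hS : ∀ S ⊆ Z, IsPreconnected S → ∀ p ∈ S, ∀ q ∈ S, ‖p.1‖ = 1 → ‖q.1‖ = 1 → 0 < ⟪p.1, q.1⟫)
    (z : F × ℝ) (hz : z ∈ Z) : ∃ t ∈ 𝓝[Z] z, Par A Z t := by
  obtain ⟨c, hc, h⟩ := exists_dir hZ hA hS z
  have hF : IsClosed {p : F × ℝ | ‖p.1‖ = 1 ∧ ⟪c, p.1⟫ ≤ 0} :=
    (isClosed_eq (by fun_prop) continuous_const).inter
      (isClosed_le (f := fun p : F × ℝ => ⟪c, p.1⟫) (by fun_prop) continuous_const)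
  obtain ⟨g, g1, g2, g3, g4⟩ := H31.cut Z {z} _ hZ isClosed_singleton hF
    (disjoint_singleton_left.2 fun hp => absurd
      (h {z} (singleton_subset_iff.2 hz) isPreconnected_singleton rfl z rfl hp.1) (not_lt.2 hp.2))
    (by
      rintro S h1 h2 ⟨x, hx, rfl⟩ ⟨q, hq, h3⟩
      exact absurd (h S h1 h2 hx q hq h3.1) (not_lt.2 h3.2))
  refine ⟨{x | 0 < g x}, mem_nhdsWithin_of_mem_nhds
    ((isOpen_lt continuous_const g1).mem_nhds (g3 z rfl)), g, g1, g2, fun _ hx => hx, {c},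
    fun p => max (g p) 0 • c, by fun_prop, fun c' hc' => Finset.mem_singleton.1 hc' ▸ hc,
    fun p hp => smul_ne_zero (lt_max_of_lt_left hp.2).ne' (h0 c hc), fun p => ?_, fun p hp => ?_⟩
  · rcases le_or_gt (g p) 0 with hn | hn
    · exact Or.inl (by simp only [max_eq_right hn, zero_smul])
    · exact Or.inr ⟨c, Finset.mem_singleton_self c, _, lt_max_of_lt_left hn, rfl⟩
  · rw [real_inner_smul_left]
    rcases le_or_gt ⟪c, p.1⟫ 0 with hn | hn
    · rw [max_eq_right (g4 p ⟨hp, hn⟩).le, zero_mul]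
    · exact mul_nonneg (le_max_right _ _) hn.le

end PieceX

theorem sPiece : SPiece := by
  intro F _ _ _ Z A hZ hA h0 hS
  obtain ⟨g, -, -, g3, C, h, h1, h2, h3, h4, h5⟩ : PieceX.Par A Z Z :=
    hZ.induction_on (p := PieceX.Par A Z) (PieceX.par_empty A Z)
      (fun _ _ hst ⟨g, g1, g2, g3, g4⟩ => ⟨g, g1, g2, fun x hx => g3 x (hst hx), g4⟩)
      (fun _ _ => PieceX.par_union) (PieceX.par_loc hZ hA h0 hS)
  exact ⟨C, h, h1, h2, fun p hp => h3 p ⟨hp, g3 p hp⟩, h4, h5⟩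

end Pool.Agent.MP_66cee2_co.Q
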