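import Pool.Agent.MP_66cee2_co.Q.Spec
import Pool.Agent.MP_66cee2_co.TR.Ini
import Pool.Agent.MP_66cee2_co.D.TCnt

/-
Row Rel: a subspace of given rank modulo the radical.
-/

namespace Pool.Agent.MP_66cee2_co.Q

open Set Module Pool.Agent.MP_66cee2_co.X Pool.Agent.MP_66cee2_co.D
open Pool.Agent.MP_66cee2_co.TR

namespace Relx

variable {n : ℕ}

theorem mono {N : ℕ} {W W' : Submodule ℝ (Ix n → ℝ)} (h : TAlgx.Fr N W) (hW : W' ≤ W) :
    TAlgx.Fr N W' := by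
  obtain ⟨u, u1, u2, u3⟩ := h
  exact ⟨u, u1, u2, fun w hw => u3 w (hW hw)⟩

theorem obr {N : ℕ} {W : Submodule ℝ (Ix n → ℝ)} (h : TAlgx.Fr N W) (m : ℕ) :
    ∀ U : Submodule ℝ (Ix n → ℝ), U ≤ W → m ≤ finrank ℝ U → (∀ v ∈ U, v ≠ 0 → 0 < lz v v) →
      TAlgx.Fr (N + m) (W ⊓ perp U) := by
  induction m with
  | zero => exact fun U _ _ _ => mono h inf_le_left
  | succ m ih =>
    intro U hUW hm hU
    obtain ⟨p, hp, hp0⟩ : ∃ p ∈ U, p ≠ 0 := by
      refine Submodule.exists_mem_ne_zero_of_ne_bot fun h => ?_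
      rw [h, finrank_bot] at hm
      omega
    have h1 := Inix.rank_inf U (Inix.fl p)
    refine TAlgx.app (ih (U ⊓ LinearMap.ker (Inix.fl p)) (inf_le_left.trans hUW) (by omega)
      fun v hv => hU v hv.1) (p := p) ⟨hUW hp, fun v hv => (lz_comm _ _).trans hv.2⟩
      (hU p hp hp0) fun w hw => ?_
    exact ⟨⟨hw.1, fun v hv => hw.2 v hv.1⟩, hw.2 p hp⟩

theorem compl (R L : Submodule ℝ (Ix n → ℝ)) (h : R ≤ L) :
    ∃ U : Submodule ℝ (Ix n → ℝ), U ≤ L ∧ (∀ x ∈ U, x ∈ R → x = 0) ∧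
      finrank ℝ L ≤ finrank ℝ U + finrank ℝ R := by
  obtain ⟨C, hC⟩ := Submodule.exists_isCompl R
  refine ⟨C ⊓ L, inf_le_right, fun x hx hr => ?_, ?_⟩
  · exact Submodule.disjoint_def.1 hC.disjoint x hr hx.1
  · have e : R ⊔ C ⊓ L = L := by rw [← sup_inf_assoc_of_le C h, hC.sup_eq_top, top_inf_eq]
    have h1 := Submodule.finrank_sup_add_finrank_inf_eq R (C ⊓ L)
    rw [e] at h1
    omega

end Relx

theorem sRel : SRel := by
  refine ⟨fun n c k W L hS hL hk => ?_, fun n c W hS => ?_⟩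
  · obtain ⟨N, u, u1, u2, u3, hN⟩ := hS
    have hF : TAlgx.Fr N W := ⟨u, u1, u2, u3⟩
    obtain ⟨U, a1, a2, a3⟩ := Relx.compl (W ⊓ perp W) (L ⊔ W ⊓ perp W) le_sup_right
    have hUW : U ≤ W := a1.trans (sup_le hL inf_le_left)
    have hP : ∀ w ∈ W ⊓ perp L, ∀ x ∈ U, lz w x = 0 := by
      intro w hw x hx
      obtain ⟨y, hy, z, hz, rfl⟩ := Submodule.mem_sup.1 (a1 hx)
      have e : lz (y + z) w = lz y w + lz z w := add_dotProduct y z _
      rw [lz_comm, e, lz_comm y, hw.2 y hy, hz.2 w hw.1, add_zero]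
    by_cases h : ∀ v ∈ U, v ≠ 0 → 0 < lz v v
    · obtain ⟨v, v1, v2, v3⟩ := Relx.mono (Relx.obr hF k U hUW (by omega) h)
        (W' := W ⊓ perp L) fun w hw => ⟨hw.1, hP w hw⟩
      refine ⟨_, v, v1, v2, v3, ?_⟩
      rcases hN with hN | ⟨hN, hW⟩
      · exact Or.inl (by omega)
      · exact Or.inr ⟨by omega, fun w hw => hW w hw.1⟩
    · push Not at h
      obtain ⟨x, hx, hx0, hx1⟩ := h
      rcases hN with hN | ⟨-, hW⟩
      · have h1 := Inix.rank_inf U Inix.df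
        obtain ⟨v, v1, v2, v3⟩ := Relx.mono (Relx.obr hF _ (U ⊓ LinearMap.ker Inix.df)
          (inf_le_left.trans hUW) le_rfl fun v hv => Inix.pos_df hv.2)
          (W' := W ⊓ perp L) fun w hw => ⟨hw.1, fun y hy => hP w hw y hy.1⟩
        exact ⟨_, v, v1, v2, v3, Or.inr ⟨by omega, fun w hw =>
          TAlgx.perp_nonneg hx0 hx1 (hP w hw x hx)⟩⟩
      · exact absurd (a2 x hx ⟨hUW hx, fun w hw =>
          (lz_comm _ _).trans (TAlgx.rad hW (hUW hx) hx1 w hw)⟩) hx0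
  · obtain ⟨N, u, u1, u2, -, hN⟩ := hS
    have h := TCntx.card_le u u1 u2
    rw [Fintype.card_fin] at h
    omega

end Pool.Agent.MP_66cee2_co.Q
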