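import Pool.Agent.MP_66cee2_co.Q.Spec
import Pool.Agent.MP_66cee2_co.H31.Cut

/-
Row Fold: a continuum in the thick hemisphere on which the span of the labels is large.
-/

namespace Pool.Agent.MP_66cee2_co.Q

open Set Metric Module Filter Topology Pool.Agent.MP_66cee2_co.X Pool.Agent.MP_66cee2_co.D
open Pool.Agent.MP_66cee2_co.TR
open scoped RealInnerProductSpace

namespace Foldx

theorem loc {d n : ℕ} {O : (Ix n → ℝ) → Set (E d)} (hO : Fam O) :
    ∃ L : E d → Submodule ℝ (Ix n → ℝ),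
      (∀ p, ∃ ε : ℝ, 0 < ε ∧ (∀ p' ∈ ball p ε, L p' ≤ L p) ∧
        ∀ v, ∀ y ∈ O v, y ∈ ball p ε → v ∈ L p) ∧
      (∀ w, ∀ y ∈ O w, ∀ p, ‖y - p‖ = 1 → ∀ v ∈ L p, lz w v = 0) ∧
      ∀ (B : Set (E d)) (W : Submodule ℝ (Ix n → ℝ)), IsOpen B → Lab O B W →
        ∀ p ∈ B, L p ≤ W := by
  let Λ : E d → ℝ → Submodule ℝ (Ix n → ℝ) := fun p ε =>
    Submodule.span ℝ {v | ∃ y ∈ O v, y ∈ ball p ε}
  have mono : ∀ p p' ε ε', ball p ε ⊆ ball p' ε' → Λ p ε ≤ Λ p' ε' := fun p p' ε ε' h =>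
    Submodule.span_mono fun v ⟨y, hy, hb⟩ => ⟨y, hy, h hb⟩
  have ex : ∀ p, ∃ ε : ℝ, 0 < ε ∧ ∀ δ : ℝ, 0 < δ → Λ p ε ≤ Λ p δ := by
    intro p
    obtain ⟨ε, e0, em⟩ : ∃ ε ∈ Ioi (0 : ℝ), ∀ δ ∈ Ioi (0 : ℝ),
        finrank ℝ (Λ p ε) ≤ finrank ℝ (Λ p δ) :=
      ⟨Function.argminOn (fun ε => finrank ℝ (Λ p ε)) (Ioi 0) ⟨1, by simp⟩,
        Function.argminOn_mem _ _ _,
        fun x hx => Function.argminOn_le (fun ε => finrank ℝ (Λ p ε)) _ hx⟩
    refine ⟨ε, e0, fun δ hδ => ?_⟩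
    have e := Submodule.eq_of_le_of_finrank_le
      (mono p p (min ε δ) ε (ball_subset_ball (min_le_left _ _))) (em _ (lt_min e0 hδ))
    rw [← e]
    exact mono p p _ _ (ball_subset_ball (min_le_right _ _))
  choose ε e0 e1 using ex
  refine ⟨fun p => Λ p (ε p), fun p => ⟨ε p, e0 p, fun p' hp' => ?_, fun v y hy hb =>
    Submodule.subset_span ⟨y, hy, hb⟩⟩, fun w y hy p hp v hv => ?_, fun B W hB hL p hp => ?_⟩
  · obtain ⟨δ, d0, d1⟩ := Metric.isOpen_iff.1 isOpen_ball p' hp'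
    exact (e1 p' δ d0).trans (mono _ _ _ _ d1)
  · obtain ⟨δ, d0, d1⟩ := Metric.isOpen_iff.1 (hO.opn w) y hy
    have h : Λ p δ ≤ perp (Submodule.span ℝ {w}) := by
      refine Submodule.span_le.2 ?_
      rintro v ⟨z, hz, hb⟩ u hu
      obtain ⟨c, rfl⟩ := Submodule.mem_span_singleton.1 hu
      have h1 : z + (y - p) ∈ O w := d1 (by
        rw [mem_ball_iff_norm] at hb ⊢
        rwa [show z + (y - p) - y = z - p by abel])
      have h2 := hO.orth w v _ z h1 hz (by rwa [add_sub_cancel_left])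
      rw [lz_comm]
      exact (smul_dotProduct c w _).trans ((congrArg _ h2).trans (smul_zero c))
    rw [lz_comm]
    exact h (e1 p δ d0 hv) w (Submodule.mem_span_singleton_self w)
  · obtain ⟨δ, d0, d1⟩ := Metric.isOpen_iff.1 hB p hp
    exact (e1 p δ d0).trans (Submodule.span_le.2 fun v ⟨y, hy, hb⟩ => hL v y hy (d1 hb))

theorem pole {d : ℕ} (u : E d) (M : Submodule ℝ (E d)) (hM : 1 ≤ finrank ℝ M) :
    ∃ e ∈ M, ‖e‖ = 1 ∧ ∀ w ∈ M, 0 ≤ ⟪w, e⟫ → 0 ≤ ⟪w, u⟫ := by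
  have hp : ∀ w ∈ M, ⟪w, M.starProjection u⟫ = ⟪w, u⟫ := fun w hw => by
    have := Submodule.inner_right_of_mem_orthogonal hw (M.sub_starProjection_mem_orthogonal u)
    rw [inner_sub_right] at this
    linarith
  by_cases h : M.starProjection u = 0
  · refine ⟨stdOrthonormalBasis ℝ M ⟨0, by omega⟩, Subtype.property _,
      (stdOrthonormalBasis ℝ M).orthonormal.1 _, fun w hw _ => ?_⟩
    rw [← hp w hw, h, inner_zero_right]
  · have n0 : 0 < ‖M.starProjection u‖ := norm_pos_iff.2 h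
    refine ⟨‖M.starProjection u‖⁻¹ • M.starProjection u,
      M.smul_mem _ (M.starProjection_apply_mem u), ?_, fun w hw h0 => ?_⟩
    · rw [norm_smul, norm_inv, norm_norm, inv_mul_cancel₀ n0.ne']
    · rw [inner_smul_right, hp w hw] at h0
      exact nonneg_of_mul_nonneg_right h0 (inv_pos.2 n0)

theorem cyl_compact (F : Type) [NormedAddCommGroup F] [InnerProductSpace ℝ F]
    [FiniteDimensional ℝ F] : IsCompact (Cyl F) := by
  have := FiniteDimensional.proper_real F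
  have e : Cyl F = closedBall (0 : F) 1 ×ˢ Icc (0 : ℝ) 1 := by
    ext p
    simp [Cyl]
  rw [e]
  exact (isCompact_closedBall _ _).prod isCompact_Icc

end Foldx

open Foldx in
theorem sFold (h1 : SLeb) (h2 : SRel) : SFold := by
  intro d n c s O B W o u M ρ η hO hB hL hS s1 sM ρ0 ρ1 η0 hsh
  obtain ⟨L, l1, l2, l3⟩ := loc hO
  obtain ⟨R, hR⟩ : ∃ R : Submodule ℝ (Ix n → ℝ), R = W ⊓ perp W := ⟨_, rfl⟩
  let r : E d → ℕ := fun x => finrank ℝ (L x ⊔ R : Submodule ℝ (Ix n → ℝ)) - finrank ℝ R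
  have lab : ∀ p (δ : ℝ), 0 < δ → ∃ v, ∃ y ∈ O v, y ∈ ball p δ ∧ v ∈ L p := by
    intro p δ hδ
    obtain ⟨ε, e0, -, e2⟩ := l1 p
    obtain ⟨y, hy, hx⟩ := hO.dense.inter_open_nonempty (ball p (min ε δ)) isOpen_ball
      (nonempty_ball.2 (lt_min e0 hδ))
    obtain ⟨v, hv⟩ := mem_iUnion.1 hx
    exact ⟨v, y, hv, ball_subset_ball (min_le_right _ _) hy,
      e2 v y hv (ball_subset_ball (min_le_left _ _) hy)⟩
  have big : ∀ x, finrank ℝ R < finrank ℝ (L x ⊔ R : Submodule ℝ (Ix n → ℝ)) := fun x => by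
    obtain ⟨v, y, hy, -, hv⟩ := lab x 1 one_pos
    refine Submodule.finrank_lt_finrank_of_lt (lt_of_le_of_ne le_sup_right fun e => ?_)
    have h0 : v ∈ R := e ▸ Submodule.mem_sup_left hv
    rw [hR] at h0
    exact (hO.pos v ⟨y, hy⟩).ne' (h0.2 v h0.1)
  have rc : ∀ j, IsClosed {x | j ≤ r x} := fun j => by
    rw [← isOpen_compl_iff, Metric.isOpen_iff]
    intro x hx
    obtain ⟨ε, e0, e1, -⟩ := l1 x
    exact ⟨ε, e0, fun y hy h => hx (le_trans h
      (Nat.sub_le_sub_right (Submodule.finrank_mono (sup_le_sup_right (e1 y hy) R)) _))⟩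
  have cst : ∀ (j : ℕ) (S : Set (E d)), IsPreconnected S → (∀ x ∈ S, r x = j) →
      ∀ a ∈ S, ∀ b ∈ S, L a ⊔ R = L b ⊔ R := by
    intro j S hS hj a ha b hb
    refine hS.induction₂' (fun x y => L x ⊔ R = L y ⊔ R) (fun x hx => ?_)
      (fun _ _ _ _ _ _ => Eq.trans) ha hb
    obtain ⟨ε, e0, e1, -⟩ := l1 x
    filter_upwards [mem_nhdsWithin_of_mem_nhds (ball_mem_nhds x e0), self_mem_nhdsWithin]
      with y hy hyS
    have a1 : _ - _ = j := hj x hx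
    have a2 : _ - _ = j := hj y hyS
    have a3 := big x
    have a4 := big y
    have := Submodule.eq_of_le_of_finrank_le (sup_le_sup_right (e1 y hy) R) (by omega)
    exact ⟨this.symm, this⟩
  have ivt : ∀ (j : ℕ) (S : Set (E d)), IsPreconnected S → (∀ x ∈ S, r x = j) →
      ∀ a ∈ S, ∀ b ∈ S, ∀ z ∈ S, Lab O (B ∩ Lune a b) (W ⊓ perp (L z)) := by
    intro j S hS hj a ha b hb z hz w y hy hl
    have hw := hL w y hy hl.1
    refine ⟨hw, fun v hv => ?_⟩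
    have c1 : Continuous fun p : E d => ‖y - p‖ := by fun_prop
    obtain ⟨p, hp, e⟩ := hS.intermediate_value hb ha c1.continuousOn ⟨hl.2.1.le, hl.2.2.le⟩
    have h3 : v ∈ L p ⊔ R := cst j S hS hj z hz p hp ▸ Submodule.mem_sup_left hv
    obtain ⟨v₁, k1, v₂, k2, rfl⟩ := Submodule.mem_sup.1 h3
    rw [hR] at k2
    have k3 := l2 w y hy p e v₁ k1
    rw [lz_comm] at k3 ⊢
    exact (add_dotProduct v₁ v₂ _).trans ((congrArg₂ _ k3 (k2.2 w hw)).trans (add_zero 0))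
  have dia : ∀ (j : ℕ) (S : Set (E d)), S ⊆ B → IsPreconnected S → (∀ x ∈ S, r x = j) →
      ∀ a ∈ S, ∀ b ∈ S, ‖a - b‖ ≤ 1 := by
    intro j S hSB hS hj a ha b hb
    by_contra hlt
    push Not at hlt
    obtain ⟨δ, d0, d1⟩ := Metric.isOpen_iff.1 hB b (hSB hb)
    obtain ⟨v, y, hy, hb', hv⟩ := lab b (min δ (min 1 (‖a - b‖ - 1)))
      (lt_min d0 (lt_min one_pos (by linarith)))
    have hyB := d1 (ball_subset_ball (min_le_left _ _) hb')
    rw [mem_ball_iff_norm, lt_min_iff, lt_min_iff] at hb'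
    have h1 : 1 < ‖y - a‖ := by
      have := norm_sub_le (y - b) (y - a)
      rw [show y - b - (y - a) = a - b by abel] at this
      linarith [hb'.2.2]
    exact (hO.pos v ⟨y, hy⟩).ne'
      ((ivt j S hS hj a ha b hb b hb v y hy ⟨hyB, hb'.2.1, h1⟩).2 v hv)
  obtain ⟨e, eM, e1, e2⟩ := pole u M (by omega)
  obtain ⟨F, hF⟩ : ∃ F : Submodule ℝ (E d), F = M ⊓ (ℝ ∙ e)ᗮ := ⟨_, rfl⟩
  have FM : ∀ x : F, (x : E d) ∈ M ∧ ⟪(x : E d), e⟫ = 0 := fun x => by
    have h : (x : E d) ∈ M ⊓ (ℝ ∙ e)ᗮ := hF ▸ x.2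
    exact ⟨h.1, Submodule.mem_orthogonal_singleton_iff_inner_left.1 h.2⟩
  have Fd : s - 1 ≤ finrank ℝ F := by
    have e0 : e ≠ 0 := by
      rintro rfl
      simp at e1
    have f1 := Submodule.finrank_add_finrank_orthogonal (ℝ ∙ e)
    have f2 := Submodule.finrank_sup_add_finrank_inf_eq M (ℝ ∙ e)ᗮ
    have f3 := Submodule.finrank_le (M ⊔ (ℝ ∙ e)ᗮ)
    rw [finrank_span_singleton e0] at f1
    rw [hF]
    omega
  let ω : F × ℝ → E d := fun p => ρ • ((p.1 : E d) + √(1 - ‖p.1‖ ^ 2) • e)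
  let φ : F × ℝ → E d := fun p => o + (1 + η * p.2) • ω p
  have φc : Continuous φ := by fun_prop
  have ωn : ∀ p ∈ Cyl F, ‖ω p‖ = ρ := fun p hp => by
    have h0 : 0 ≤ 1 - ‖p.1‖ ^ 2 := by nlinarith [hp.1, norm_nonneg p.1]
    have h3 : ‖(p.1 : E d) + √(1 - ‖p.1‖ ^ 2) • e‖ ^ 2 = 1 := by
      rw [norm_add_sq_real, inner_smul_right, (FM p.1).2, norm_smul, e1, Real.norm_eq_abs,
        mul_one, sq_abs, Real.sq_sqrt h0, Submodule.coe_norm]
      ring
    have h4 : ‖(p.1 : E d) + √(1 - ‖p.1‖ ^ 2) • e‖ = 1 := by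
      nlinarith [norm_nonneg ((p.1 : E d) + √(1 - ‖p.1‖ ^ 2) • e)]
    simp only [ω]
    rw [norm_smul, h4, Real.norm_eq_abs, abs_of_pos ρ0, mul_one]
  have φs : ∀ p ∈ Cyl F, φ p ∈ Shell o u M ρ η := fun p hp => by
    have hm : ω p ∈ M := M.smul_mem _ (M.add_mem (FM p.1).1 (M.smul_mem _ eM))
    refine ⟨ω p, hm, _, ωn p hp, e2 _ hm ?_, ?_, ?_, rfl⟩
    · simp only [ω]
      rw [real_inner_smul_left, inner_add_left, (FM p.1).2, real_inner_smul_left,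
        real_inner_self_eq_norm_sq, e1]
      positivity
    · nlinarith [hp.2.1]
    · nlinarith [hp.2.2]
  have φn : ∀ p ∈ Cyl F, ‖φ p - o‖ = (1 + η * p.2) * ρ := fun p hp => by
    simp only [φ]
    rw [add_sub_cancel_left, norm_smul, ωn p hp, Real.norm_eq_abs,
      abs_of_pos (by nlinarith [hp.2.1])]
  obtain ⟨S, S1, S2, S3, p, hp, q, hq, p0, q1⟩ := h1 F (s - 1) (fun p => r (φ p)) Fd
    (fun j => (rc j).preimage φc) (fun p => Nat.sub_pos_of_lt (big _))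
    (fun j S hS hc hj p hp q hq np nq => by
      have h3 := dia j (φ '' S) (by
          rintro _ ⟨x, hx, rfl⟩
          exact hsh (φs x (hS hx))) (hc.image φ φc.continuousOn)
        (by
          rintro _ ⟨x, hx, rfl⟩
          exact hj x hx) _ ⟨p, hp, rfl⟩ _ ⟨q, hq, rfl⟩
      have h4 := norm_sub_sq_real (φ p - o) (φ q - o)
      rw [sub_sub_sub_cancel_right, φn p (hS hp), φn q (hS hq)] at h4
      have h5 : ⟪φ p - o, φ q - o⟫ =
          (1 + η * p.2) * (1 + η * q.2) * ρ ^ 2 * ⟪p.1, q.1⟫ := by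
        simp only [φ, ω, np, nq, add_sub_cancel_left, one_pow, sub_self, Real.sqrt_zero,
          zero_smul, add_zero, real_inner_smul_left, real_inner_smul_right,
          Submodule.coe_inner]
        ring
      have a1 : 1 ≤ 1 + η * p.2 := by nlinarith [(hS hp).2.1]
      have a2 : 1 ≤ 1 + η * q.2 := by nlinarith [(hS hq).2.1]
      have a3 : ‖φ p - φ q‖ ^ 2 ≤ 1 := by nlinarith [norm_nonneg (φ p - φ q)]
      have a4 : ρ ^ 2 ≤ ((1 + η * p.2) * ρ) ^ 2 :=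
        pow_le_pow_left₀ ρ0.le (le_mul_of_one_le_left ρ0.le a1) 2
      have a5 : ρ ^ 2 ≤ ((1 + η * q.2) * ρ) ^ 2 :=
        pow_le_pow_left₀ ρ0.le (le_mul_of_one_le_left ρ0.le a2) 2
      have a6 : 0 < (1 + η * p.2) * (1 + η * q.2) * ρ ^ 2 * ⟪p.1, q.1⟫ := by linarith
      exact (pos_iff_pos_of_mul_pos a6).1 (by positivity))
  have hc : closure S ⊆ Cyl F := closure_minimal S1 (cyl_compact F).isClosed
  have k1 : IsCompact (φ '' closure S) :=
    ((cyl_compact F).of_isClosed_subset isClosed_closure hc).image φc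
  have k2 : ∀ x ∈ φ '' closure S, s ≤ r x := by
    rintro _ ⟨x, hx, rfl⟩
    have : s - 1 + 1 ≤ r (φ x) := closure_minimal S3 ((rc (s - 1 + 1)).preimage φc) hx
    omega
  have k3 : φ '' closure S ⊆ Shell o u M ρ η := by
    rintro _ ⟨x, hx, rfl⟩
    exact φs x (hc hx)
  have mp : φ p ∈ φ '' closure S := ⟨p, subset_closure hp, rfl⟩
  have mq : φ q ∈ φ '' closure S := ⟨q, subset_closure hq, rfl⟩
  obtain ⟨a, ha, am⟩ : ∃ a ∈ φ '' closure S, ∀ x ∈ φ '' closure S, r a ≤ r x :=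
    ⟨Function.argminOn r _ ⟨_, mp⟩, Function.argminOn_mem _ _ _,
      fun x hx => Function.argminOn_le _ _ hx⟩
  obtain ⟨z, hz, za⟩ : ∃ z ∈ φ '' closure S, z ≠ a := by
    by_cases h : φ p = a
    · refine ⟨_, mq, fun e => ?_⟩
      have b1 := φn p (S1 hp)
      have b2 := φn q (S1 hq)
      rw [h, p0] at b1
      rw [e, q1, b1] at b2
      nlinarith
    · exact ⟨_, mp, h⟩
  obtain ⟨K, K1, K2, aK, b, bK, ba⟩ := H31.bump _ {x | r a + 1 ≤ r x}ᶜ a z k1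
    (S2.closure.image φ φc.continuousOn) ha hz za (rc _).isOpen_compl (by simp)
  have Kj : ∀ x ∈ K, r x = r a := fun x hx => by
    have b1 := am x (K1 hx).1
    have b2 := (K1 hx).2
    simp only [mem_compl_iff, mem_ofPred_eq] at b2
    omega
  refine ⟨W ⊓ perp (L a), a, k3 ha, b, k3 (K1 bK).1, ba.symm,
    h2.1 n c s W (L a) hS (l3 B W hB hL a (hsh (k3 ha))) ?_,
    ivt _ K K2 Kj a aK b bK a aK, ivt _ K K2 Kj b bK a aK a aK⟩
  have b1 : s ≤ _ - _ := k2 a ha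
  have b2 := big a
  rw [← hR]
  omega

end Pool.Agent.MP_66cee2_co.Q
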