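import Pool.Agent.MP_66cee2_co.Q.Spec

/-
The next hemisphere inside a lune of a thick hemisphere.
-/

namespace Pool.Agent.MP_66cee2_co.Q

open Set Metric Module Pool.Agent.MP_66cee2_co.X Pool.Agent.MP_66cee2_co.D
open Pool.Agent.MP_66cee2_co.TR
open scoped RealInnerProductSpace

namespace Movex

theorem rank {d : ℕ} (V : Submodule ℝ (E d)) (p : E d) :
    finrank ℝ V ≤ finrank ℝ (V ⊓ (ℝ ∙ p)ᗮ : Submodule ℝ (E d)) + 1 := by
  have h1 := Submodule.finrank_sup_add_finrank_inf_eq V (ℝ ∙ p)ᗮ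
  have h2 := Submodule.finrank_add_finrank_orthogonal (ℝ ∙ p)
  have h3 := Submodule.finrank_le (V ⊔ (ℝ ∙ p)ᗮ)
  have h4 : finrank ℝ (ℝ ∙ p) ≤ 1 := by
    simpa using finrank_span_le_card (R := ℝ) ({p} : Set (E d))
  omega

theorem nsq {d : ℕ} (p w : E d) (s : ℝ) (h : ⟪p, w⟫ = 0) :
    ‖s • p + w‖ ^ 2 = s ^ 2 * ‖p‖ ^ 2 + ‖w‖ ^ 2 := by
  rw [norm_add_sq_real, inner_smul_left, h, norm_smul, mul_pow, Real.norm_eq_abs, sq_abs]
  simp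

theorem norm_eq {d : ℕ} (p w : E d) (ρ c : ℝ) (hρ : 0 < ρ) (hc : 2 * ρ ^ 2 * c = 1)
    (hp : ‖p‖ = ρ) (h : ⟪p, w⟫ = 0) (hw : ‖w‖ ^ 2 = 1 - c / 2) : ‖(1 - c) • p + w‖ = ρ := by
  have h1 := nsq p w (1 - c) h
  rw [hp, hw] at h1
  have h2 : ‖(1 - c) • p + w‖ ^ 2 = ρ ^ 2 := by
    rw [h1]
    linear_combination (c / 2 - 1) * hc
  exact (sq_eq_sq₀ (norm_nonneg _) hρ.le).1 h2

theorem core {d s : ℕ} (B K : Set (E d)) (o z a u : E d) (M : Submodule ℝ (E d))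
    (ρ c κ δ : ℝ) (hρ2 : 1 / 2 < ρ ^ 2) (hc : 2 * ρ ^ 2 * c = 1) (hδ : 0 < δ)
    (hB : ∀ y ∈ K, ∀ y' : E d, ‖y' - y‖ < δ → y' ∈ B) (hz : ‖z‖ = ρ) (hκ : 1 ≤ κ)
    (hκ2 : (κ - 1) * ρ ≤ δ / 4) (hab : a ≠ o + κ • z)
    (hl : κ * ⟪z, o + κ • z - a⟫ ≤ ‖o + κ • z - a‖ ^ 2 / 2) (hs : s ≤ finrank ℝ M)
    (hM : ∀ w ∈ M, ⟪z, w⟫ = 0 ∧ (‖w‖ ^ 2 = 1 - c / 2 → 0 ≤ ⟪w, u⟫ →
      0 ≤ ⟪w, o + κ • z - a⟫ ∧ o + ((1 - c) • z + w) ∈ K)) :
    Hem (B ∩ Lune a (o + κ • z)) s := by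
  set b := o + κ • z with hb
  have hl0 : 0 < ‖b - a‖ := norm_pos_iff.2 (sub_ne_zero.2 hab.symm)
  have hl1 : 0 < ‖b - a‖ ^ 2 := by positivity
  have hc0 : 0 < c := by
    by_contra h
    push Not at h
    nlinarith
  have hc1 : c < 1 := by nlinarith
  obtain ⟨σ, s0, s1, s2, s3⟩ : ∃ σ : ℝ, 0 < σ ∧ 2 * σ < (1 - c) * ‖b - a‖ ^ 2 ∧ σ ≤ δ / 4 ∧
      σ ≤ (1 - c) / 8 := by
    have p1 : 0 < (1 - c) * ‖b - a‖ ^ 2 := mul_pos (by linarith) hl1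
    refine ⟨min ((1 - c) * ‖b - a‖ ^ 2 / 4) (min (δ / 4) ((1 - c) / 8)), ?_, ?_, ?_, ?_⟩
    · exact lt_min (by linarith) (lt_min (by linarith) (by linarith))
    · have := min_le_left ((1 - c) * ‖b - a‖ ^ 2 / 4) (min (δ / 4) ((1 - c) / 8))
      linarith
    · exact (min_le_right _ _).trans (min_le_left _ _)
    · exact (min_le_right _ _).trans (min_le_right _ _)
  have ht : 0 < 1 - σ := by linarith
  have hr : 0 < 1 - c / 2 := by linarith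
  have hsq : √(1 - c / 2) ^ 2 = 1 - c / 2 := Real.sq_sqrt hr.le
  have hsp : 0 < √(1 - c / 2) := Real.sqrt_pos.2 hr
  refine ⟨b - ((1 - σ) * c) • z, u, M, (1 - σ) * √(1 - c / 2), hs, mul_pos ht hsp, ?_, ?_⟩
  · rw [mul_pow, hsq]
    nlinarith [mul_pos s0 s0, mul_pos s0 hc0, mul_pos (mul_pos s0 s0) hr]
  intro w' hw' hn hu
  obtain ⟨w, rfl⟩ : ∃ w : E d, w' = (1 - σ) • w :=
    ⟨(1 - σ)⁻¹ • w', by rw [smul_smul, mul_inv_cancel₀ ht.ne', one_smul]⟩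
  have hw : w ∈ M := (Submodule.smul_mem_iff M ht.ne').1 hw'
  rw [norm_smul, Real.norm_eq_abs, abs_of_pos ht] at hn
  have hn' : ‖w‖ ^ 2 = 1 - c / 2 := by
    rw [mul_left_cancel₀ ht.ne' hn, hsq]
  rw [real_inner_smul_left] at hu
  have hu' : 0 ≤ ⟪w, u⟫ := (mul_nonneg_iff_of_pos_left ht).1 hu
  obtain ⟨e1, e2⟩ := hM w hw
  obtain ⟨e3, e4⟩ := e2 hn' hu'
  have hv : ‖(-c) • z + w‖ = 1 := by
    have h1 := nsq z w (-c) e1
    rw [hz, hn'] at h1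
    have h2 : ‖(-c) • z + w‖ ^ 2 = 1 ^ 2 := by
      rw [h1]
      linear_combination (c / 2) * hc
    exact (sq_eq_sq₀ (norm_nonneg _) zero_le_one).1 h2
  have hy : b - ((1 - σ) * c) • z + (1 - σ) • w = b + (1 - σ) • ((-c) • z + w) := by
    module
  have hsv : ‖(1 - σ) • ((-c) • z + w)‖ = 1 - σ := by
    rw [norm_smul, hv, Real.norm_eq_abs, abs_of_pos ht, mul_one]
  rw [hy]
  refine ⟨hB _ e4 _ ?_, ?_, ?_⟩
  · have q1 : b + (1 - σ) • ((-c) • z + w) - (o + ((1 - c) • z + w)) =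
        (κ - 1) • z - σ • ((-c) • z + w) := by
      rw [hb]
      module
    rw [q1]
    have q2 := norm_sub_le ((κ - 1) • z) (σ • ((-c) • z + w))
    rw [norm_smul, norm_smul, hz, hv, Real.norm_eq_abs, Real.norm_eq_abs,
      abs_of_nonneg (by linarith : 0 ≤ κ - 1), abs_of_pos s0] at q2
    linarith
  · rw [add_sub_cancel_left, hsv]
    linarith
  · have q1 : b + (1 - σ) • ((-c) • z + w) - a = (1 - σ) • ((-c) • z + w) + (b - a) := by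
      module
    have q2 : ‖(1 - σ) • ((-c) • z + w) + (b - a)‖ ^ 2 =
        (1 - σ) ^ 2 + 2 * ((1 - σ) * (-c * ⟪z, b - a⟫ + ⟪w, b - a⟫)) + ‖b - a‖ ^ 2 := by
      rw [norm_add_sq_real, hsv, real_inner_smul_left, inner_add_left, real_inner_smul_left]
    have q3 : ⟪z, b - a⟫ ≤ ‖b - a‖ ^ 2 / 2 := by
      by_cases h : ⟪z, b - a⟫ ≤ 0
      · linarith
      · push Not at h
        nlinarith
    have q4 : (1 - σ) * c * ⟪z, b - a⟫ ≤ (1 - σ) * c * (‖b - a‖ ^ 2 / 2) :=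
      mul_le_mul_of_nonneg_left q3 (mul_pos ht hc0).le
    have q5 : 0 ≤ (1 - σ) * ⟪w, b - a⟫ := mul_nonneg ht.le e3
    have q6 : 0 < σ * c * ‖b - a‖ ^ 2 := by positivity
    rw [q1]
    have q7 : 1 ^ 2 < ‖(1 - σ) • ((-c) • z + w) + (b - a)‖ ^ 2 := by
      rw [q2]
      nlinarith [mul_pos s0 s0]
    exact lt_of_pow_lt_pow_left₀ 2 (norm_nonneg _) q7

theorem rdy {d s s' : ℕ} (B K : Set (E d)) (o u : E d) (M : Submodule ℝ (E d)) (ρ c : ℝ)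
    (hB : IsOpen B) (hK : IsCompact K) (hKB : K ⊆ B) (hs : s ≤ finrank ℝ M) (hρ : 0 < ρ)
    (hρ2 : 1 / 2 < ρ ^ 2) (hc : 2 * ρ ^ 2 * c = 1)
    (h1 : ∀ w ∈ M, ‖w‖ = ρ → 0 ≤ ⟪w, u⟫ → o + w ∈ K)
    (h2 : ∀ z ∈ M, ‖z‖ = ρ → 0 ≤ ⟪z, u⟫ → ∀ e : E d, ∃ (M' : Submodule ℝ (E d)) (u' : E d),
      s' ≤ finrank ℝ M' ∧ ∀ w ∈ M', ⟪z, w⟫ = 0 ∧ (‖w‖ ^ 2 = 1 - c / 2 → 0 ≤ ⟪w, u'⟫ →
        0 ≤ ⟪w, e⟫ ∧ o + ((1 - c) • z + w) ∈ K)) : Rdy B s s' := by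
  obtain ⟨δ, hδ, hth⟩ := hK.exists_thickening_subset_open hB hKB
  have hB' : ∀ y ∈ K, ∀ y' : E d, ‖y' - y‖ < δ → y' ∈ B := fun y hy y' h =>
    hth (mem_thickening_iff.2 ⟨y, hy, by rwa [dist_eq_norm]⟩)
  have hη : δ / (4 * ρ) * ρ = δ / 4 := by field_simp
  have hk : ∀ κ : ℝ, κ ≤ 1 + δ / (4 * ρ) → (κ - 1) * ρ ≤ δ / 4 := fun κ h => by
    rw [← hη]
    exact mul_le_mul_of_nonneg_right (by linarith) hρ.le
  have key : ∀ a : E d, ∀ b ∈ Shell o u M ρ (δ / (4 * ρ)), a ≠ b →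
      ⟪b - o, b - a⟫ ≤ ‖b - a‖ ^ 2 / 2 → Hem (B ∩ Lune a b) s' := by
    rintro a b ⟨z, z1, κ, z2, z3, z4, z5, rfl⟩ hab hl
    obtain ⟨M', u', m1, m2⟩ := h2 z z1 z2 z3 (o + κ • z - a)
    rw [add_sub_cancel_left, real_inner_smul_left] at hl
    exact core B K o z a u' M' ρ c κ δ hρ2 hc hδ hB' z2 z4 (hk κ z5) hab hl m1 m2
  refine ⟨o, u, M, ρ, δ / (4 * ρ), hs, hρ, hρ2, by positivity, ?_, ?_⟩
  · rintro y ⟨z, z1, κ, z2, z3, z4, z5, rfl⟩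
    refine hB' _ (h1 z z1 z2 z3) _ ?_
    have q1 : o + κ • z - (o + z) = (κ - 1) • z := by module
    rw [q1, norm_smul, z2, Real.norm_eq_abs, abs_of_nonneg (by linarith : 0 ≤ κ - 1)]
    have := hk κ z5
    linarith
  · intro a ha b hb hab
    by_cases h : ⟪b - o, b - a⟫ ≤ ‖b - a‖ ^ 2 / 2
    · exact Or.inl (key a b hb hab h)
    · refine Or.inr (key b a ha hab.symm ?_)
      have q1 : ⟪b - o, b - a⟫ + ⟪a - o, a - b⟫ = ‖b - a‖ ^ 2 := by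
        have q2 : a - b = -(b - a) := by abel
        rw [q2, inner_neg_right, ← sub_eq_add_neg, ← inner_sub_left, ← real_inner_self_eq_norm_sq]
        congr 1
        abel
      rw [norm_sub_rev a b]
      linarith

theorem cpt {d : ℕ} (o : E d) (M : Submodule ℝ (E d)) (ρ : ℝ) (C : Set (E d)) (hC : IsClosed C) :
    IsCompact (Sph o M ρ ∩ C) := by
  have c1 : IsClosed {y : E d | y - o ∈ M} :=
    M.closed_of_finiteDimensional.preimage (continuous_id.sub continuous_const)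
  have c2 : IsClosed {y : E d | ‖y - o‖ = ρ} :=
    isClosed_eq (by fun_prop) continuous_const
  refine (isCompact_closedBall o ρ).of_isClosed_subset ((c1.inter c2).inter hC) ?_
  rintro y ⟨⟨_, h⟩, _⟩
  rw [mem_closedBall, dist_eq_norm]
  exact h.le

theorem exc (ρ : ℝ) (hρ : 0 < ρ) : ∃ c : ℝ, 2 * ρ ^ 2 * c = 1 :=
  ⟨1 / (2 * ρ ^ 2), by field_simp⟩

end Movex

open Movex in
theorem sMove : SMove := by
  constructor
  · rintro d s B hB ⟨o, u, M, ρ, hs, hρ, hρ2, h⟩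
    obtain ⟨c, hc⟩ := exc ρ hρ
    have hc1 : c < 1 := by
      by_contra h
      push Not at h
      nlinarith
    have mem : ∀ w ∈ M, ‖w‖ = ρ → 0 ≤ ⟪w, u⟫ →
        o + w ∈ Sph o M ρ ∩ {y : E d | 0 ≤ ⟪y - o, u⟫} := fun w w1 w2 w3 => by
      refine ⟨⟨?_, ?_⟩, ?_⟩
      · rwa [add_sub_cancel_left]
      · rwa [add_sub_cancel_left]
      · show 0 ≤ ⟪o + w - o, u⟫
        rwa [add_sub_cancel_left]
    refine rdy B (Sph o M ρ ∩ {y : E d | 0 ≤ ⟪y - o, u⟫}) o u M ρ c hB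
      (cpt o M ρ _ (isClosed_le continuous_const (by fun_prop))) ?_ hs hρ hρ2 hc mem ?_
    · rintro y ⟨⟨y1, y2⟩, y3⟩
      have := h _ y1 y2 y3
      rwa [add_sub_cancel] at this
    · intro z z1 z2 z3 e
      refine ⟨(M ⊓ (ℝ ∙ z)ᗮ) ⊓ (ℝ ∙ e)ᗮ, u, ?_, ?_⟩
      · have r1 := rank M z
        have r2 := rank (M ⊓ (ℝ ∙ z)ᗮ) e
        omega
      · rintro w ⟨⟨w1, w2⟩, w3⟩
        have w2' : ⟪z, w⟫ = 0 := Submodule.mem_orthogonal_singleton_iff_inner_right.1 w2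
        have w3' : ⟪w, e⟫ = 0 := Submodule.mem_orthogonal_singleton_iff_inner_left.1 w3
        refine ⟨w2', fun hn hu => ⟨w3'.ge, mem _ (M.add_mem (M.smul_mem _ z1) w1)
          (norm_eq z w ρ c hρ hc z2 w2' hn) ?_⟩⟩
        rw [inner_add_left, real_inner_smul_left]
        exact add_nonneg (mul_nonneg (by linarith) z3) hu
  · rintro d m B hB ⟨o, M, ρ, y₀, hs, hρ, hρ2, h⟩
    obtain ⟨c, hc⟩ := exc ρ hρ
    have mem : ∀ w ∈ M, ‖w‖ = ρ → 1 / 8 ≤ ‖o + w - y₀‖ →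
        o + w ∈ Sph o M ρ ∩ {y : E d | 1 / 8 ≤ ‖y - y₀‖} := fun w w1 w2 w3 => by
      refine ⟨⟨?_, ?_⟩, w3⟩
      · rwa [add_sub_cancel_left]
      · rwa [add_sub_cancel_left]
    refine rdy B (Sph o M ρ ∩ {y : E d | 1 / 8 ≤ ‖y - y₀‖}) o (o - y₀) M ρ c hB
      (cpt o M ρ _ (isClosed_le continuous_const (by fun_prop))) ?_ hs hρ (by linarith) hc ?_ ?_
    · rintro y ⟨y1, y2⟩
      exact h y y1 y2
    · intro w w1 w2 w3
      refine mem w w1 w2 ?_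
      have q1 : o + w - y₀ = w + (o - y₀) := by abel
      have q2 := norm_add_sq_real w (o - y₀)
      rw [w2] at q2
      rw [q1]
      have q3 : (1 / 8 : ℝ) ^ 2 ≤ ‖w + (o - y₀)‖ ^ 2 := by
        nlinarith [sq_nonneg ‖o - y₀‖]
      exact le_of_pow_le_pow_left₀ two_ne_zero (norm_nonneg _) q3
    · intro z z1 z2 z3 e
      refine ⟨M ⊓ (ℝ ∙ z)ᗮ, e, ?_, ?_⟩
      · have r1 := rank M z
        omega
      · rintro w ⟨w1, w2⟩
        have w2' : ⟪z, w⟫ = 0 := Submodule.mem_orthogonal_singleton_iff_inner_right.1 w2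
        refine ⟨w2', fun hn hu => ⟨hu, mem _ (M.add_mem (M.smul_mem _ z1) w1)
          (norm_eq z w ρ c hρ hc z2 w2' hn) ?_⟩⟩
        have q1 : o + ((1 - c) • z + w) - y₀ = (o - y₀) + ((1 - c) • z + w) := by abel
        have q2 : ⟪z, o + ((1 - c) • z + w) - y₀⟫ = ⟪z, o - y₀⟫ + (1 - c) * ρ ^ 2 := by
          rw [q1, inner_add_right, inner_add_right, real_inner_smul_right, w2',
            real_inner_self_eq_norm_sq, z2, add_zero]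
        have q3 := real_inner_le_norm z (o + ((1 - c) • z + w) - y₀)
        rw [q2, z2] at q3
        by_contra hlt
        push Not at hlt
        have q4 : ρ * ‖o + ((1 - c) • z + w) - y₀‖ < ρ * (1 / 8) :=
          mul_lt_mul_of_pos_left hlt hρ
        have q5 : 7745 / 10000 ≤ ρ := by nlinarith
        nlinarith [mul_nonneg (sub_nonneg.2 q5) (sub_nonneg.2 q5)]

end Pool.Agent.MP_66cee2_co.Q
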