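import Pool.Agent.MP_66cee2_co.Q.Spec
import Pool.Agent.MP_66cee2_co.TR.TT

/-
The first two steps, with the larger radius kept.
-/

namespace Pool.Agent.MP_66cee2_co.Q

open Set Metric Module Pool.Agent.MP_66cee2_co.X Pool.Agent.MP_66cee2_co.D
open Pool.Agent.MP_66cee2_co.TR
open scoped RealInnerProductSpace

namespace Secx

/-- an arc with a unit pair, and a large sphere of neighbours of each of its points. -/
def ArcsQ {d : ℕ} (B : Set (E d)) (m : ℕ) : Prop :=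
  ∃ K A : Set (E d), IsCompact K ∧ K ⊆ B ∧ A ⊆ K ∧ IsPreconnected A ∧
    (∃ y ∈ A, ∃ z ∈ A, ‖y - z‖ = 1) ∧
    ∀ ζ ∈ A, ∃ (o : E d) (V : Submodule ℝ (E d)) (ρ : ℝ), m ≤ finrank ℝ V ∧ 0 < ρ ∧
      3 / 5 ≤ ρ ^ 2 ∧ ρ ^ 2 ≤ 4 / 5 ∧ ∀ y ∈ Sph o V ρ, y ∈ K ∧ ‖y - ζ‖ = 1

variable {d : ℕ}

theorem core (hd : 3 ≤ d) (o e : E d) (h : ℝ) (he : ‖e‖ = 1) (h0 : 0 < h) (h1 : h ≤ 1 / 20) :
    ArcsQ (Lune (o - h • e) (o + h • e)) (d - 1) := by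
  obtain ⟨f, -, hf, -, -, hef, -⟩ := TStartx.frame hd he
  have ee : ⟪e, e⟫ = 1 := by rw [real_inner_self_eq_norm_sq, he, one_pow]
  let γ : ℝ → E d := fun t => o + (t • f + (√(1 - t ^ 2) + 3 * h / 4) • e)
  have γc : Continuous γ := by fun_prop
  have γo : ∀ t, γ t - o = t • f + (√(1 - t ^ 2) + 3 * h / 4) • e := fun t => by simp [γ]
  have hc : ∀ t ∈ Icc (-1 / 2 : ℝ) (1 / 2), √(1 - t ^ 2) ^ 2 = 1 - t ^ 2 ∧ 1 / 2 ≤ √(1 - t ^ 2) ∧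
      √(1 - t ^ 2) ≤ 1 := fun t ht => by
    have a0 : 3 / 4 ≤ 1 - t ^ 2 := by nlinarith [ht.1, ht.2]
    refine ⟨Real.sq_sqrt (by linarith), Real.le_sqrt_of_sq_le (by linarith), ?_⟩
    exact Real.sqrt_le_one.2 (by nlinarith)
  have c1 : Continuous fun y : E d => ‖y - o‖ := by fun_prop
  have c2 : Continuous fun y : E d => ⟪y - o, e⟫ := by fun_prop
  refine ⟨γ '' Icc (-1 / 2) (1 / 2) ∪ {y | ‖y - o‖ = 1 ∧ 5 * h / 8 ≤ ⟪y - o, e⟫},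
    γ '' Icc (-1 / 2) (1 / 2), ?_, ?_, subset_union_left,
    isPreconnected_Icc.image _ γc.continuousOn, ?_, ?_⟩
  · refine (isCompact_Icc.image γc).union ?_
    exact (isCompact_sphere o 1).of_isClosed_subset
      ((isClosed_eq c1 continuous_const).inter (isClosed_le continuous_const c2))
      fun y hy => mem_sphere_iff_norm.2 hy.1
  · rintro y (⟨t, ht, rfl⟩ | ⟨y1, y2⟩)
    · obtain ⟨a1, a2, -⟩ := hc t ht
      have n1 := Startx.nsq he hf hef t (√(1 - t ^ 2) + 3 * h / 4)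
      have n2 : ⟪γ t - o, e⟫ = √(1 - t ^ 2) + 3 * h / 4 := by
        rw [γo, inner_add_left, real_inner_smul_left, real_inner_smul_left, hef, ee]
        ring
      rw [← γo] at n1
      refine Startx.lune_of he ?_ ?_ <;> rw [n1, n2] <;> nlinarith
    · refine Startx.lune_of he ?_ ?_ <;> rw [y1] <;> nlinarith
  · refine ⟨_, ⟨1 / 2, by norm_num, rfl⟩, _, ⟨-1 / 2, by norm_num, rfl⟩, ?_⟩
    have : γ (1 / 2) - γ (-1 / 2) = f := by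
      have e1 : ((-1 / 2 : ℝ)) ^ 2 = (1 / 2) ^ 2 := by norm_num
      simp only [γ, e1]
      module
    rw [this, hf]
  · rintro _ ⟨t, ht, rfl⟩
    obtain ⟨a1, a2, a3⟩ := hc t ht
    have n1 := Startx.nsq he hf hef t (√(1 - t ^ 2) + 3 * h / 4)
    have hw := γo t
    rw [← hw] at n1
    generalize √(1 - t ^ 2) = c at a1 a2 a3 n1 hw
    generalize γ t = ζ at n1 hw
    obtain ⟨w, rfl⟩ : ∃ w, ζ = o + w := ⟨ζ - o, by abel⟩
    rw [add_sub_cancel_left] at n1 hw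
    have n2 : ‖w‖ ^ 2 = 1 + 3 * h / 2 * c + 9 * h ^ 2 / 16 := by
      rw [n1]
      linarith
    have n3 : 1 ≤ ‖w‖ ^ 2 := by nlinarith
    have n4 : ‖w‖ ^ 2 ≤ 11 / 10 := by nlinarith
    have w0 : w ≠ 0 := by
      rintro rfl
      norm_num at n3
    have f1 := Submodule.finrank_add_finrank_orthogonal (ℝ ∙ w)
    rw [finrank_span_singleton w0, finrank_euclideanSpace_fin] at f1
    have r2 : √(1 - ‖w‖ ^ 2 / 4) ^ 2 = 1 - ‖w‖ ^ 2 / 4 := Real.sq_sqrt (by linarith)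
    refine ⟨o + (1 / 2 : ℝ) • w, (ℝ ∙ w)ᗮ, √(1 - ‖w‖ ^ 2 / 4), by omega,
      Real.sqrt_pos.2 (by linarith), by linarith, by linarith, fun y hy => ?_⟩
    obtain ⟨v, rfl⟩ : ∃ v, y = o + (1 / 2 : ℝ) • w + v := ⟨y - (o + (1 / 2 : ℝ) • w), by abel⟩
    obtain ⟨v1, v2⟩ := hy
    rw [add_sub_cancel_left] at v1 v2
    have v3 : ⟪v, w⟫ = 0 := Submodule.mem_orthogonal_singleton_iff_inner_left.1 v1
    have v4 : ‖v‖ ^ 2 = 1 - ‖w‖ ^ 2 / 4 := by rw [v2, r2]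
    have n5 : ‖(1 / 2 : ℝ) • w‖ ^ 2 = ‖w‖ ^ 2 / 4 := by
      rw [norm_smul, mul_pow]
      norm_num
      ring
    have e1 : o + (1 / 2 : ℝ) • w + v - o = v + (1 / 2 : ℝ) • w := by abel
    have e2 : o + (1 / 2 : ℝ) • w + v - (o + w) = v - (1 / 2 : ℝ) • w := by module
    have u1 : ‖v + (1 / 2 : ℝ) • w‖ = 1 := Startx.eq_one (by
      rw [norm_add_sq_real, inner_smul_right, v3, v4, n5]
      ring)
    have u2 : ‖v - (1 / 2 : ℝ) • w‖ = 1 := Startx.eq_one (by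
      rw [norm_sub_sq_real, inner_smul_right, v3, v4, n5]
      ring)
    refine ⟨Or.inr ⟨by rw [e1, u1], ?_⟩, by rw [e2, u2]⟩
    rw [e1]
    have u3 : ⟪v + (1 / 2 : ℝ) • w, w⟫ = ‖w‖ ^ 2 / 2 := by
      rw [inner_add_left, v3, real_inner_smul_left, real_inner_self_eq_norm_sq]
      ring
    generalize v + (1 / 2 : ℝ) • w = u at u1 u3
    have u4 : ⟪u, w⟫ = t * ⟪u, f⟫ + (c + 3 * h / 4) * ⟪u, e⟫ := by
      rw [hw, inner_add_right, inner_smul_right, inner_smul_right]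
    have u5 := abs_real_inner_le_norm u f
    rw [u1, hf, mul_one, abs_le] at u5
    have u6 : t * ⟪u, f⟫ ≤ 1 / 2 := by nlinarith [ht.1, ht.2, u5.1, u5.2]
    by_contra hc'
    have u7 : (c + 3 * h / 4) * ⟪u, e⟫ ≤ (c + 3 * h / 4) * (5 * h / 8) :=
      mul_le_mul_of_nonneg_left (not_le.1 hc').le (by linarith)
    nlinarith

theorem start (d : ℕ) (a b : E d) (hd : 3 ≤ d) (hab : a ≠ b) (hle : ‖a - b‖ ≤ 1 / 10) :
    ArcsQ (Lune a b) (d - 1) := by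
  have n0 : 0 < ‖b - a‖ := norm_pos_iff.2 (sub_ne_zero.2 hab.symm)
  have he : ‖‖b - a‖⁻¹ • (b - a)‖ = 1 := by
    rw [norm_smul, norm_inv, norm_norm, inv_mul_cancel₀ n0.ne']
  have h := core hd (a + (1 / 2 : ℝ) • (b - a)) _ (‖b - a‖ / 2) he (by linarith)
    (by rw [norm_sub_rev]; linarith)
  have e0 : (‖b - a‖ / 2) • ‖b - a‖⁻¹ • (b - a) = (1 / 2 : ℝ) • (b - a) := by
    rw [smul_smul]
    congr 1
    field_simp
  have e1 : a + (1 / 2 : ℝ) • (b - a) + (1 / 2 : ℝ) • (b - a) = b := by module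
  rwa [e0, add_sub_cancel_right, e1] at h

theorem cap (d m : ℕ) (B : Set (E d)) (hB : IsOpen B) (hA : ArcsQ B m) :
    ∃ G : Set (E d), IsOpen G ∧ IsPreconnected G ∧ G ⊆ B ∧ (∃ y ∈ G, ∃ z ∈ G, ‖y - z‖ = 1) ∧
      ∀ ζ ∈ G, ∀ (e : E d) (B' : Set (E d)), ‖e‖ = 1 → Band B B' ζ e → InvQ B' m := by
  obtain ⟨K, A, hK, hKB, hAK, hpre, ⟨y, hy, z, hz, hyz⟩, hs⟩ := hA
  obtain ⟨δ, hδ, hth⟩ := hK.exists_thickening_subset_open hB hKB
  refine ⟨thickening δ A, isOpen_thickening, TCapx.pre hpre δ,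
    (thickening_subset_of_subset δ hAK).trans hth,
    ⟨y, self_subset_thickening hδ A hy, z, self_subset_thickening hδ A hz, hyz⟩, ?_⟩
  intro ζ hζ e B' he hb
  obtain ⟨z₀, hz₀, hd⟩ := mem_thickening_iff.1 hζ
  obtain ⟨o, V, ρ, h1, h2, h3, h4, h5⟩ := hs z₀ hz₀
  have key : ∀ x ∈ Sph (o + (ζ - z₀)) V ρ, x ∈ B ∧ ‖x - ζ‖ = 1 := by
    intro x hx
    have e1 : x - (ζ - z₀) - o = x - (o + (ζ - z₀)) := by abel
    obtain ⟨a1, a2⟩ := h5 (x - (ζ - z₀)) ⟨e1 ▸ hx.1, e1 ▸ hx.2⟩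
    refine ⟨hth (mem_thickening_iff.2 ⟨_, a1, ?_⟩), ?_⟩
    · rw [dist_eq_norm, sub_sub_cancel, ← dist_eq_norm]
      exact hd
    · rw [← a2]
      congr 1
      abel
  have fin : ∀ x ∈ Sph (o + (ζ - z₀)) V ρ, |⟪x - ζ, e⟫| ≤ 127 / 128 → x ∈ B' := by
    intro x hx h
    have := hb (x - ζ) (key x hx).2 h (by rw [add_sub_cancel]; exact (key x hx).1)
    rwa [add_sub_cancel] at this
  by_cases hc : ∃ x₁ ∈ Sph (o + (ζ - z₀)) V ρ, 127 / 128 < ⟪x₁ - ζ, e⟫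
  · obtain ⟨x₁, hx₁, hc⟩ := hc
    refine ⟨o + (ζ - z₀), V, ρ, ζ + e, h1, h2, h3, fun x hx hf => fin x hx (abs_le.2 ⟨?_, ?_⟩)⟩
    · refine TCapx.both he h4 ?_ hc
      have e1 : x₁ - ζ - (x - ζ) = (x₁ - (o + (ζ - z₀))) - (x - (o + (ζ - z₀))) := by abel
      rw [e1]
      refine (norm_sub_le _ _).trans ?_
      rw [hx.2, hx₁.2]
      linarith
    · refine TCapx.up (key x hx).2 he ?_
      rwa [sub_sub]
  · refine ⟨o + (ζ - z₀), V, ρ, ζ - e, h1, h2, h3, fun x hx hf => fin x hx (abs_le.2 ⟨?_, ?_⟩)⟩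
    · have e1 : x - (ζ - e) = x - ζ - -e := by abel
      have := TCapx.up (key x hx).2 ((norm_neg e).trans he) (e1 ▸ hf)
      rw [inner_neg_right] at this
      linarith
    · exact not_lt.1 fun h => hc ⟨x, hx, h⟩

end Secx

theorem sSec : SSec := by
  intro d n O hd hO
  obtain ⟨a, b, L, a1, a2, a3, a4⟩ := sTri sPM H31.sCut H31.sBump d n O (by omega) hO
  obtain ⟨G, g1, g2, g3, g4, g5⟩ :=
    Secx.cap d (d - 1) _ (isOpen_lune a b) (Secx.start d a b hd a1 a2)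
  obtain ⟨q, q', ζ, e, B', b1, b2, b3, b4, b5, b6, b7, b8, b9, b10⟩ :=
    sTStep d n O _ G _ hO (isOpen_lune a b) a4 g1 g2 g3 g4
  exact ⟨B', _, b8, b9, sAlg.1 n d _ q q' (sIni n d L a3) b1 b2 b3 b4 b5, g5 ζ b6 e B' b7 b10⟩

end Pool.Agent.MP_66cee2_co.Q
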