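import Pool.Agent.MP_66cee2_co.F.Main
import Pool.Agent.MP_66cee2_co.Q.Br
import Pool.Agent.MP_66cee2_co.Q.Gen
import Pool.Agent.MP_66cee2_co.Q.Piece
import Pool.Agent.MP_66cee2_co.Q.Leb
import Pool.Agent.MP_66cee2_co.Q.Rel
import Pool.Agent.MP_66cee2_co.Q.Fold
import Pool.Agent.MP_66cee2_co.Q.Move
import Pool.Agent.MP_66cee2_co.Q.Sec

/-
Maps into spaces of dimension at most `(d - 1) (d + 7) / 4`: the theorem.
-/

namespace Pool.Agent.MP_66cee2_co.Q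

theorem noFamQ : STQ := sTQ_of sRel sMove (sFold (sLeb sBr sGen sPiece) sRel) sSec

theorem allIsoQ (d n : ℕ) (hd : 3 ≤ d) (hn : 4 * n + 7 ≤ d ^ 2 + 6 * d) : XT.AllIso d n :=
  F.allIso_noFam d n hd fun O => noFamQ d n O hd hn

end Pool.Agent.MP_66cee2_co.Q
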