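import Pool.Agent.MP_66cee2_co.Q.Fold

/-
The fold step for a general chart, with a bound on the distance of the two points.
-/

namespace Pool.Agent.MP_66cee2_co.Q

open Set Metric Module Filter Topology Pool.Agent.MP_66cee2_co.X Pool.Agent.MP_66cee2_co.D
open Pool.Agent.MP_66cee2_co.TR
open scoped RealInnerProductSpace

open Foldx in
/-- a continuum `K` in the image of the chart; all lunes of `K` have labels in `W'`. -/
theorem foldK (h1 : SLeb) (h2 : SRel) {d n c s : ℕ} {O : (Ix n → ℝ) → Set (E d)} {B : Set (E d)}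
    {W : Submodule ℝ (Ix n → ℝ)} (hO : Fam O) (hB : IsOpen B) (hL : Lab O B W) (hS : Su c W)
    (F : Type) [NormedAddCommGroup F] [InnerProductSpace ℝ F] [FiniteDimensional ℝ F]
    (φ : F × ℝ → E d) (φc : Continuous φ) (hsh : ∀ p ∈ Cyl F, φ p ∈ B)
    (hrim : ∀ p ∈ Cyl F, ∀ q ∈ Cyl F, ‖p.1‖ = 1 → ‖q.1‖ = 1 → ‖φ p - φ q‖ ≤ 1 → 0 < ⟪p.1, q.1⟫)
    (hend : ∀ p ∈ Cyl F, ∀ q ∈ Cyl F, p.2 = 0 → q.2 = 1 → φ p ≠ φ q) (Fd : s ≤ finrank ℝ F)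
    {ε : ℝ} (ε0 : 0 < ε) :
    ∃ (W' : Submodule ℝ (Ix n → ℝ)) (K : Set (E d)), K ⊆ φ '' Cyl F ∧ IsPreconnected K ∧
      (∃ a ∈ K, ∃ b ∈ K, a ≠ b) ∧ (∀ a ∈ K, ∀ b ∈ K, ‖a - b‖ ≤ ε) ∧ Su (c + s + 1) W' ∧
      ∀ a ∈ K, ∀ b ∈ K, Lab O (B ∩ Lune a b) W' := by
  obtain ⟨L, l1, l2, l3⟩ := loc hO
  obtain ⟨R, hR⟩ : ∃ R : Submodule ℝ (Ix n → ℝ), R = W ⊓ perp W := ⟨_, rfl⟩
  let r : E d → ℕ := fun x => finrank ℝ (L x ⊔ R : Submodule ℝ (Ix n → ℝ)) - finrank ℝ R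
  have lab : ∀ p (δ : ℝ), 0 < δ → ∃ v, ∃ y ∈ O v, y ∈ ball p δ ∧ v ∈ L p := by
    intro p δ hδ
    obtain ⟨ε, e0, -, e2⟩ := l1 p
    obtain ⟨y, hy, hx⟩ := hO.dense.inter_open_nonempty (ball p (min ε δ)) isOpen_ball
      (nonempty_ball.2 (lt_min e0 hδ))
    obtain ⟨v, hv⟩ := mem_iUnion.1 hx
    exact ⟨v, y, hv, ball_subset_ball (min_le_right _ _) hy,
      e2 v y hv (ball_subset_ball (min_le_left _ _) hy)⟩
  have big : ∀ x, finrank ℝ R < finrank ℝ (L x ⊔ R : Submodule ℝ (Ix n → ℝ)) := fun x => by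
    obtain ⟨v, y, hy, -, hv⟩ := lab x 1 one_pos
    refine Submodule.finrank_lt_finrank_of_lt (lt_of_le_of_ne le_sup_right fun e => ?_)
    have h0 : v ∈ R := e ▸ Submodule.mem_sup_left hv
    rw [hR] at h0
    exact (hO.pos v ⟨y, hy⟩).ne' (h0.2 v h0.1)
  have rc : ∀ j, IsClosed {x | j ≤ r x} := fun j => by
    rw [← isOpen_compl_iff, Metric.isOpen_iff]
    intro x hx
    obtain ⟨ε, e0, e1, -⟩ := l1 x
    exact ⟨ε, e0, fun y hy h => hx (le_trans h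
      (Nat.sub_le_sub_right (Submodule.finrank_mono (sup_le_sup_right (e1 y hy) R)) _))⟩
  have cst : ∀ (j : ℕ) (S : Set (E d)), IsPreconnected S → (∀ x ∈ S, r x = j) →
      ∀ a ∈ S, ∀ b ∈ S, L a ⊔ R = L b ⊔ R := by
    intro j S hS hj a ha b hb
    refine hS.induction₂' (fun x y => L x ⊔ R = L y ⊔ R) (fun x hx => ?_)
      (fun _ _ _ _ _ _ => Eq.trans) ha hb
    obtain ⟨ε, e0, e1, -⟩ := l1 x
    filter_upwards [mem_nhdsWithin_of_mem_nhds (ball_mem_nhds x e0), self_mem_nhdsWithin]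
      with y hy hyS
    have a1 : _ - _ = j := hj x hx
    have a2 : _ - _ = j := hj y hyS
    have a3 := big x
    have a4 := big y
    have := Submodule.eq_of_le_of_finrank_le (sup_le_sup_right (e1 y hy) R) (by omega)
    exact ⟨this.symm, this⟩
  have ivt : ∀ (j : ℕ) (S : Set (E d)), IsPreconnected S → (∀ x ∈ S, r x = j) →
      ∀ a ∈ S, ∀ b ∈ S, ∀ z ∈ S, Lab O (B ∩ Lune a b) (W ⊓ perp (L z)) := by
    intro j S hS hj a ha b hb z hz w y hy hl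
    have hw := hL w y hy hl.1
    refine ⟨hw, fun v hv => ?_⟩
    have c1 : Continuous fun p : E d => ‖y - p‖ := by fun_prop
    obtain ⟨p, hp, e⟩ := hS.intermediate_value hb ha c1.continuousOn ⟨hl.2.1.le, hl.2.2.le⟩
    have h3 : v ∈ L p ⊔ R := cst j S hS hj z hz p hp ▸ Submodule.mem_sup_left hv
    obtain ⟨v₁, k1, v₂, k2, rfl⟩ := Submodule.mem_sup.1 h3
    rw [hR] at k2
    have k3 := l2 w y hy p e v₁ k1
    rw [lz_comm] at k3 ⊢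
    exact (add_dotProduct v₁ v₂ _).trans ((congrArg₂ _ k3 (k2.2 w hw)).trans (add_zero 0))
  have dia : ∀ (j : ℕ) (S : Set (E d)), S ⊆ B → IsPreconnected S → (∀ x ∈ S, r x = j) →
      ∀ a ∈ S, ∀ b ∈ S, ‖a - b‖ ≤ 1 := by
    intro j S hSB hS hj a ha b hb
    by_contra hlt
    push Not at hlt
    obtain ⟨δ, d0, d1⟩ := Metric.isOpen_iff.1 hB b (hSB hb)
    obtain ⟨v, y, hy, hb', hv⟩ := lab b (min δ (min 1 (‖a - b‖ - 1)))
      (lt_min d0 (lt_min one_pos (by linarith)))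
    have hyB := d1 (ball_subset_ball (min_le_left _ _) hb')
    rw [mem_ball_iff_norm, lt_min_iff, lt_min_iff] at hb'
    have h1 : 1 < ‖y - a‖ := by
      have := norm_sub_le (y - b) (y - a)
      rw [show y - b - (y - a) = a - b by abel] at this
      linarith [hb'.2.2]
    exact (hO.pos v ⟨y, hy⟩).ne'
      ((ivt j S hS hj a ha b hb b hb v y hy ⟨hyB, hb'.2.1, h1⟩).2 v hv)
  obtain ⟨S, S1, S2, S3, p, hp, q, hq, p0, q1⟩ := h1 F s (fun p => r (φ p)) Fd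
    (fun j => (rc j).preimage φc) (fun p => Nat.sub_pos_of_lt (big _))
    (fun j S hS hc hj p hp q hq np nq => hrim p (hS hp) q (hS hq) np nq
      (dia j (φ '' S) (by
          rintro _ ⟨x, hx, rfl⟩
          exact hsh x (hS hx)) (hc.image φ φc.continuousOn)
        (by
          rintro _ ⟨x, hx, rfl⟩
          exact hj x hx) _ ⟨p, hp, rfl⟩ _ ⟨q, hq, rfl⟩))
  have hc : closure S ⊆ Cyl F := closure_minimal S1 (cyl_compact F).isClosed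
  have k1 : IsCompact (φ '' closure S) :=
    ((cyl_compact F).of_isClosed_subset isClosed_closure hc).image φc
  have k2 : ∀ x ∈ φ '' closure S, s + 1 ≤ r x := by
    rintro _ ⟨x, hx, rfl⟩
    exact closure_minimal S3 ((rc (s + 1)).preimage φc) hx
  have k3 : φ '' closure S ⊆ φ '' Cyl F := image_mono hc
  have mp : φ p ∈ φ '' closure S := ⟨p, subset_closure hp, rfl⟩
  have mq : φ q ∈ φ '' closure S := ⟨q, subset_closure hq, rfl⟩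
  obtain ⟨a, ha, am⟩ : ∃ a ∈ φ '' closure S, ∀ x ∈ φ '' closure S, r a ≤ r x :=
    ⟨Function.argminOn r _ ⟨_, mp⟩, Function.argminOn_mem _ _ _,
      fun x hx => Function.argminOn_le _ _ hx⟩
  obtain ⟨z, hz, za⟩ : ∃ z ∈ φ '' closure S, z ≠ a := by
    by_cases h : φ p = a
    · exact ⟨_, mq, fun e => hend p (S1 hp) q (S1 hq) p0 q1 (h.trans e.symm)⟩
    · exact ⟨_, mp, h⟩
  obtain ⟨K, K1, K2, aK, b, bK, ba⟩ := H31.bump _ ({x | r a + 1 ≤ r x}ᶜ ∩ ball a (ε / 2)) a z k1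
    (S2.closure.image φ φc.continuousOn) ha hz za ((rc _).isOpen_compl.inter isOpen_ball)
    ⟨by simp, mem_ball_self (by linarith)⟩
  have Kj : ∀ x ∈ K, r x = r a := fun x hx => by
    have b1 := am x (K1 hx).1
    have b2 := (K1 hx).2.1
    simp only [mem_compl_iff, mem_ofPred_eq] at b2
    omega
  have aB : a ∈ B := by
    obtain ⟨x, hx, rfl⟩ := k3 ha
    exact hsh x hx
  refine ⟨W ⊓ perp (L a), K, fun x hx => k3 (K1 hx).1, K2, ⟨a, aK, b, bK, ba.symm⟩,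
    fun x hx y hy => ?_, h2.1 n c (s + 1) W (L a) hS (l3 B W hB hL a aB) ?_,
    fun x hx y hy => ivt _ K K2 Kj x hx y hy a aK⟩
  · have h3 := mem_ball.1 (K1 hx).2.2
    have h4 := mem_ball.1 (K1 hy).2.2
    rw [← dist_eq_norm]
    linarith [dist_triangle_right x y a]
  · have b1 : s + 1 ≤ _ - _ := k2 a ha
    have b2 := big a
    rw [← hR]
    omega

/-- the form with two points. -/
theorem foldG (h1 : SLeb) (h2 : SRel) {d n c s : ℕ} {O : (Ix n → ℝ) → Set (E d)} {B : Set (E d)}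
    {W : Submodule ℝ (Ix n → ℝ)} (hO : Fam O) (hB : IsOpen B) (hL : Lab O B W) (hS : Su c W)
    (F : Type) [NormedAddCommGroup F] [InnerProductSpace ℝ F] [FiniteDimensional ℝ F]
    (φ : F × ℝ → E d) (φc : Continuous φ) (hsh : ∀ p ∈ Cyl F, φ p ∈ B)
    (hrim : ∀ p ∈ Cyl F, ∀ q ∈ Cyl F, ‖p.1‖ = 1 → ‖q.1‖ = 1 → ‖φ p - φ q‖ ≤ 1 → 0 < ⟪p.1, q.1⟫)
    (hend : ∀ p ∈ Cyl F, ∀ q ∈ Cyl F, p.2 = 0 → q.2 = 1 → φ p ≠ φ q) (Fd : s ≤ finrank ℝ F)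
    {ε : ℝ} (ε0 : 0 < ε) :
    ∃ (W' : Submodule ℝ (Ix n → ℝ)), ∃ a ∈ φ '' Cyl F, ∃ b ∈ φ '' Cyl F, a ≠ b ∧ ‖a - b‖ ≤ ε ∧
      Su (c + s + 1) W' ∧ Lab O (B ∩ Lune a b) W' ∧ Lab O (B ∩ Lune b a) W' := by
  obtain ⟨W', K, k1, -, ⟨a, ha, b, hb, ab⟩, k4, k5, k6⟩ :=
    foldK h1 h2 hO hB hL hS F φ φc hsh hrim hend Fd ε0
  exact ⟨W', a, k1 ha, b, k1 hb, ab, k4 a ha b hb, k5, k6 a ha b hb, k6 b hb a ha⟩

open Foldx in
/-- the step on a thick hemisphere, with the continuum. -/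
theorem sFoldK (h1 : SLeb) (h2 : SRel) {d n c s : ℕ} {O : (Ix n → ℝ) → Set (E d)} {B : Set (E d)}
    {W : Submodule ℝ (Ix n → ℝ)} {o u : E d} {M : Submodule ℝ (E d)} {ρ η ε : ℝ} (hO : Fam O)
    (hB : IsOpen B) (hL : Lab O B W) (hS : Su c W) (s1 : 1 ≤ s) (sM : s ≤ finrank ℝ M)
    (ρ0 : 0 < ρ) (ρ1 : 1 / 2 < ρ ^ 2) (η0 : 0 < η) (hsh : Shell o u M ρ η ⊆ B) (ε0 : 0 < ε) :
    ∃ (W' : Submodule ℝ (Ix n → ℝ)) (K : Set (E d)), K ⊆ Shell o u M ρ η ∧ IsPreconnected K ∧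
      (∃ a ∈ K, ∃ b ∈ K, a ≠ b) ∧ (∀ a ∈ K, ∀ b ∈ K, ‖a - b‖ ≤ ε) ∧ Su (c + s) W' ∧
      ∀ a ∈ K, ∀ b ∈ K, Lab O (B ∩ Lune a b) W' := by
  obtain ⟨e, eM, e1, e2⟩ := pole u M (by omega)
  obtain ⟨F, hF⟩ : ∃ F : Submodule ℝ (E d), F = M ⊓ (ℝ ∙ e)ᗮ := ⟨_, rfl⟩
  have FM : ∀ x : F, (x : E d) ∈ M ∧ ⟪(x : E d), e⟫ = 0 := fun x => by
    have h : (x : E d) ∈ M ⊓ (ℝ ∙ e)ᗮ := hF ▸ x.2
    exact ⟨h.1, Submodule.mem_orthogonal_singleton_iff_inner_left.1 h.2⟩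
  have Fd : s - 1 ≤ finrank ℝ F := by
    have e0 : e ≠ 0 := by
      rintro rfl
      simp at e1
    have f1 := Submodule.finrank_add_finrank_orthogonal (ℝ ∙ e)
    have f2 := Submodule.finrank_sup_add_finrank_inf_eq M (ℝ ∙ e)ᗮ
    have f3 := Submodule.finrank_le (M ⊔ (ℝ ∙ e)ᗮ)
    rw [finrank_span_singleton e0] at f1
    rw [hF]
    omega
  let ω : F × ℝ → E d := fun p => ρ • ((p.1 : E d) + √(1 - ‖p.1‖ ^ 2) • e)
  let φ : F × ℝ → E d := fun p => o + (1 + η * p.2) • ω p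
  have φc : Continuous φ := by fun_prop
  have ωn : ∀ p ∈ Cyl F, ‖ω p‖ = ρ := fun p hp => by
    have h0 : 0 ≤ 1 - ‖p.1‖ ^ 2 := by nlinarith [hp.1, norm_nonneg p.1]
    have h3 : ‖(p.1 : E d) + √(1 - ‖p.1‖ ^ 2) • e‖ ^ 2 = 1 := by
      rw [norm_add_sq_real, inner_smul_right, (FM p.1).2, norm_smul, e1, Real.norm_eq_abs,
        mul_one, sq_abs, Real.sq_sqrt h0, Submodule.coe_norm]
      ring
    have h4 : ‖(p.1 : E d) + √(1 - ‖p.1‖ ^ 2) • e‖ = 1 := by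
      nlinarith [norm_nonneg ((p.1 : E d) + √(1 - ‖p.1‖ ^ 2) • e)]
    simp only [ω]
    rw [norm_smul, h4, Real.norm_eq_abs, abs_of_pos ρ0, mul_one]
  have φs : ∀ p ∈ Cyl F, φ p ∈ Shell o u M ρ η := fun p hp => by
    have hm : ω p ∈ M := M.smul_mem _ (M.add_mem (FM p.1).1 (M.smul_mem _ eM))
    refine ⟨ω p, hm, _, ωn p hp, e2 _ hm ?_, ?_, ?_, rfl⟩
    · simp only [ω]
      rw [real_inner_smul_left, inner_add_left, (FM p.1).2, real_inner_smul_left,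
        real_inner_self_eq_norm_sq, e1]
      positivity
    · nlinarith [hp.2.1]
    · nlinarith [hp.2.2]
  have φn : ∀ p ∈ Cyl F, ‖φ p - o‖ = (1 + η * p.2) * ρ := fun p hp => by
    simp only [φ]
    rw [add_sub_cancel_left, norm_smul, ωn p hp, Real.norm_eq_abs,
      abs_of_pos (by nlinarith [hp.2.1])]
  obtain ⟨W', K, k1, k2, k3, k4, k5, k6⟩ := foldK (s := s - 1) h1 h2 hO hB hL hS F φ φc
    (fun p hp => hsh (φs p hp)) (fun p hp q hq np nq h3 => by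
      have h4 := norm_sub_sq_real (φ p - o) (φ q - o)
      rw [sub_sub_sub_cancel_right, φn p hp, φn q hq] at h4
      have h5 : ⟪φ p - o, φ q - o⟫ =
          (1 + η * p.2) * (1 + η * q.2) * ρ ^ 2 * ⟪p.1, q.1⟫ := by
        simp only [φ, ω, np, nq, add_sub_cancel_left, one_pow, sub_self, Real.sqrt_zero,
          zero_smul, add_zero, real_inner_smul_left, real_inner_smul_right,
          Submodule.coe_inner]
        ring
      have a1 : 1 ≤ 1 + η * p.2 := by nlinarith [hp.2.1]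
      have a2 : 1 ≤ 1 + η * q.2 := by nlinarith [hq.2.1]
      have a3 : ‖φ p - φ q‖ ^ 2 ≤ 1 := by nlinarith [norm_nonneg (φ p - φ q)]
      have a4 : ρ ^ 2 ≤ ((1 + η * p.2) * ρ) ^ 2 :=
        pow_le_pow_left₀ ρ0.le (le_mul_of_one_le_left ρ0.le a1) 2
      have a5 : ρ ^ 2 ≤ ((1 + η * q.2) * ρ) ^ 2 :=
        pow_le_pow_left₀ ρ0.le (le_mul_of_one_le_left ρ0.le a2) 2
      have a6 : 0 < (1 + η * p.2) * (1 + η * q.2) * ρ ^ 2 * ⟪p.1, q.1⟫ := by linarith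
      exact (pos_iff_pos_of_mul_pos a6).1 (by positivity))
    (fun p hp q hq p0 q1 e => by
      have b1 := φn p hp
      have b2 := φn q hq
      rw [p0] at b1
      rw [← e, q1, b1] at b2
      nlinarith) Fd ε0
  refine ⟨W', K, fun x hx => ?_, k2, k3, k4, ?_, k6⟩
  · obtain ⟨p, hp, rfl⟩ := k1 hx
    exact φs p hp
  · rwa [show c + (s - 1) + 1 = c + s by omega] at k5

/-- row Fold with a bound on the distance of the two points. -/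
theorem sFoldE (h1 : SLeb) (h2 : SRel) {d n c s : ℕ} {O : (Ix n → ℝ) → Set (E d)} {B : Set (E d)}
    {W : Submodule ℝ (Ix n → ℝ)} {o u : E d} {M : Submodule ℝ (E d)} {ρ η ε : ℝ} (hO : Fam O)
    (hB : IsOpen B) (hL : Lab O B W) (hS : Su c W) (s1 : 1 ≤ s) (sM : s ≤ finrank ℝ M)
    (ρ0 : 0 < ρ) (ρ1 : 1 / 2 < ρ ^ 2) (η0 : 0 < η) (hsh : Shell o u M ρ η ⊆ B) (ε0 : 0 < ε) :
    ∃ (W' : Submodule ℝ (Ix n → ℝ)), ∃ a ∈ Shell o u M ρ η, ∃ b ∈ Shell o u M ρ η, a ≠ b ∧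
      ‖a - b‖ ≤ ε ∧ Su (c + s) W' ∧ Lab O (B ∩ Lune a b) W' ∧ Lab O (B ∩ Lune b a) W' := by
  obtain ⟨W', K, k1, -, ⟨a, ha, b, hb, ab⟩, k4, k5, k6⟩ :=
    sFoldK h1 h2 hO hB hL hS s1 sM ρ0 ρ1 η0 hsh ε0
  exact ⟨W', a, k1 ha, b, k1 hb, ab, k4 a ha b hb, k5, k6 a ha b hb, k6 b hb a ha⟩

end Pool.Agent.MP_66cee2_co.Q
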