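import Pool.Agent.MP_66cee2_co.Q.Spec

/-
Row Move: the next hemisphere.
-/

namespace Pool.Agent.MP_66cee2_co.Q.H85

open Set Metric Module Pool.Agent.MP_66cee2_co.X Pool.Agent.MP_66cee2_co.D
open Pool.Agent.MP_66cee2_co.TR
open scoped RealInnerProductSpace

theorem nsq {d : ℕ} (z w : E d) (c : ℝ) (h : ⟪w, z⟫ = 0) :
    ‖c • z + w‖ ^ 2 = c ^ 2 * ‖z‖ ^ 2 + ‖w‖ ^ 2 := by
  rw [norm_add_sq_real, real_inner_smul_left, real_inner_comm, h, norm_smul, mul_pow,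
    Real.norm_eq_abs, sq_abs]
  ring

theorem core {d : ℕ} {o a b z : E d} {ρ δ κ : ℝ} (h0 : 0 < ρ) (h1 : 1 / 2 < ρ ^ 2)
    (hz : ‖z‖ = ρ) (k1 : 1 ≤ κ) (k2 : (κ - 1) * ρ < δ) (hb : b = o + κ • z) (hab : a ≠ b)
    (hl : ⟪b - o, b - a⟫ ≤ ‖b - a‖ ^ 2 / 2) :
    ∃ (o' : E d) (ρ' c : ℝ), 0 < ρ' ∧ 1 / 2 < ρ' ^ 2 ∧ 0 < c ∧ ∀ w : E d, ‖w‖ = ρ' →
      ⟪w, z⟫ = 0 → 0 ≤ ⟪w, b - a⟫ → o' + w ∈ Lune a b ∧
        ‖(1 - 1 / (2 * ρ ^ 2)) • z + c • w‖ = ρ ∧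
        ‖o' + w - (o + ((1 - 1 / (2 * ρ ^ 2)) • z + c • w))‖ < δ := by
  obtain ⟨μ, hμ⟩ : ∃ μ : ℝ, μ = 1 / (2 * ρ ^ 2) := ⟨_, rfl⟩
  have hρ2 : 0 < ρ ^ 2 := by positivity
  have m0 : 0 < μ := by rw [hμ]; positivity
  have m1 : μ * ρ ^ 2 = 1 / 2 := by rw [hμ]; field_simp
  have m2 : μ < 1 := by nlinarith
  rw [← hμ]
  have l0 : 0 < ‖b - a‖ ^ 2 := pow_pos (norm_pos_iff.2 (sub_ne_zero.2 hab.symm)) 2
  obtain ⟨r, r0, r2⟩ : ∃ r : ℝ, 0 < r ∧ r ^ 2 = 1 - μ / 2 :=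
    ⟨√(1 - μ / 2), Real.sqrt_pos.2 (by linarith), Real.sq_sqrt (by linarith)⟩
  obtain ⟨σ, s0, s1, s2, s3⟩ : ∃ σ : ℝ, 0 < σ ∧ σ ≤ (1 - μ) * ‖b - a‖ ^ 2 / 4 ∧
      σ ≤ (δ - (κ - 1) * ρ) / 2 ∧ σ ≤ (1 - μ) / 8 := by
    have m3 : 0 < 1 - μ := by linarith
    refine ⟨min ((1 - μ) * ‖b - a‖ ^ 2 / 4) (min ((δ - (κ - 1) * ρ) / 2) ((1 - μ) / 8)),
      lt_min (by positivity) (lt_min (by linarith) (by linarith)), min_le_left _ _,
      (min_le_right _ _).trans (min_le_left _ _), (min_le_right _ _).trans (min_le_right _ _)⟩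
  have t0 : 0 < 1 - σ := by linarith
  refine ⟨b + ((1 - σ) * -μ) • z, (1 - σ) * r, (1 - σ)⁻¹, by positivity, ?_, by positivity,
    fun w w1 w2 w3 => ?_⟩
  · rw [mul_pow, r2]
    nlinarith [sq_nonneg σ, mul_pos s0 m0]
  obtain ⟨v, rfl⟩ : ∃ v : E d, w = (1 - σ) • v :=
    ⟨(1 - σ)⁻¹ • w, by rw [smul_smul, mul_inv_cancel₀ t0.ne', one_smul]⟩
  rw [smul_smul, inv_mul_cancel₀ t0.ne', one_smul]
  rw [norm_smul, Real.norm_eq_abs, abs_of_pos t0] at w1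
  rw [real_inner_smul_left] at w2 w3
  have v1 : ‖v‖ = r := mul_left_cancel₀ t0.ne' w1
  have v2 : ⟪v, z⟫ = 0 := (mul_eq_zero.1 w2).resolve_left t0.ne'
  have v3 : 0 ≤ ⟪v, b - a⟫ := nonneg_of_mul_nonneg_right w3 t0
  have n1 : ‖(-μ) • z + v‖ = 1 := by
    have h := nsq z v (-μ) v2
    rw [hz, v1, r2] at h
    refine (pow_eq_one_iff_of_nonneg (norm_nonneg _) two_ne_zero).1 ?_
    rw [h]
    linear_combination μ * m1
  have e1 : b + ((1 - σ) * -μ) • z + (1 - σ) • v = b + (1 - σ) • ((-μ) • z + v) := by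
    rw [smul_add, smul_smul, add_assoc]
  rw [e1]
  refine ⟨⟨?_, ?_⟩, ?_, ?_⟩
  · show ‖b + (1 - σ) • ((-μ) • z + v) - b‖ < 1
    rw [add_sub_cancel_left, norm_smul, n1, Real.norm_eq_abs, abs_of_pos t0]
    linarith
  · show 1 < ‖b + (1 - σ) • ((-μ) • z + v) - a‖
    have e2 : b + (1 - σ) • ((-μ) • z + v) - a = (1 - σ) • ((-μ) • z + v) + (b - a) := by abel
    have e3 : ⟪b - o, b - a⟫ = κ * ⟪z, b - a⟫ := by
      rw [← real_inner_smul_left]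
      exact congrArg (fun x => ⟪x, b - a⟫) (by rw [hb, add_sub_cancel_left])
    have e4 : ⟪z, b - a⟫ ≤ ‖b - a‖ ^ 2 / 2 := by
      by_contra hc
      have hc' := not_le.1 hc
      have h5 : 0 ≤ (κ - 1) * ⟪z, b - a⟫ := mul_nonneg (by linarith) (by linarith)
      linarith
    refine lt_of_pow_lt_pow_left₀ 2 (norm_nonneg _) ?_
    rw [e2, norm_add_sq_real, norm_smul, n1, real_inner_smul_left, inner_add_left,
      real_inner_smul_left, Real.norm_eq_abs, abs_of_pos t0]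
    have e5 : 0 ≤ (1 - σ) * ⟪v, b - a⟫ := mul_nonneg t0.le v3
    have e6 : (1 - σ) * μ * ⟪z, b - a⟫ ≤ (1 - σ) * μ * (‖b - a‖ ^ 2 / 2) :=
      mul_le_mul_of_nonneg_left e4 (by positivity)
    have e7 : 0 < σ * μ * ‖b - a‖ ^ 2 := by positivity
    have e8 : 0 < (1 - μ) * ‖b - a‖ ^ 2 := mul_pos (by linarith) l0
    have e9 := sq_nonneg σ
    generalize ‖b - a‖ ^ 2 = l at *
    generalize ⟪z, b - a⟫ = p at *
    generalize ⟪v, b - a⟫ = q at *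
    linarith
  · have h := nsq z v (1 - μ) v2
    rw [hz, v1, r2] at h
    refine (pow_left_inj₀ (norm_nonneg _) h0.le two_ne_zero).1 ?_
    rw [h]
    linear_combination (μ - 2) * m1
  · have e2 : b + (1 - σ) • ((-μ) • z + v) - (o + ((1 - μ) • z + v)) =
        (κ - 1) • z - σ • ((-μ) • z + v) := by
      rw [hb]
      module
    rw [e2]
    refine (norm_sub_le _ _).trans_lt ?_
    rw [norm_smul, norm_smul, n1, hz, Real.norm_eq_abs, Real.norm_eq_abs,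
      abs_of_nonneg (by linarith), abs_of_pos s0]
    linarith

theorem gen {d s s' : ℕ} {B K : Set (E d)} (hB : IsOpen B) {o u : E d} {M : Submodule ℝ (E d)}
    {ρ : ℝ} (hs : s ≤ finrank ℝ M) (h0 : 0 < ρ) (h1 : 1 / 2 < ρ ^ 2) (hK : IsCompact K)
    (hKB : ∀ w ∈ K, o + w ∈ B) (hH : ∀ w ∈ M, ‖w‖ = ρ → 0 ≤ ⟪w, u⟫ → w ∈ K)
    (hN : ∀ z ∈ M, ‖z‖ = ρ → 0 ≤ ⟪z, u⟫ → ∀ e : E d, ∃ (M' : Submodule ℝ (E d)) (u' : E d),
      s' ≤ finrank ℝ M' ∧ ∀ w ∈ M', 0 ≤ ⟪w, u'⟫ → ⟪w, z⟫ = 0 ∧ 0 ≤ ⟪w, e⟫ ∧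
        (‖(1 - 1 / (2 * ρ ^ 2)) • z + w‖ = ρ → (1 - 1 / (2 * ρ ^ 2)) • z + w ∈ K)) :
    Rdy B s s' := by
  obtain ⟨δ, d0, hδ⟩ := (hK.image (continuous_const_add o)).exists_thickening_subset_open hB
    (by rintro _ ⟨w, hw, rfl⟩; exact hKB w hw)
  have near : ∀ w ∈ K, ∀ y : E d, ‖y - (o + w)‖ < δ → y ∈ B := fun w hw y hy =>
    hδ (mem_thickening_iff.2 ⟨o + w, ⟨w, hw, rfl⟩, by rwa [dist_eq_norm]⟩)
  have kk : ∀ κ : ℝ, κ ≤ 1 + δ / (2 * ρ) → (κ - 1) * ρ < δ := fun κ hκ => by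
    have e1 : δ / (2 * ρ) * ρ = δ / 2 := by field_simp
    nlinarith
  have one : ∀ a : E d, ∀ b ∈ Shell o u M ρ (δ / (2 * ρ)), a ≠ b →
      ⟪b - o, b - a⟫ ≤ ‖b - a‖ ^ 2 / 2 → Hem (B ∩ Lune a b) s' := by
    intro a b ⟨z, z1, κ, z2, z3, k1, k2, hb⟩ hab hl
    obtain ⟨o', ρ', c, a1, a2, a3, a4⟩ := core h0 h1 z2 k1 (kk κ k2) hb hab hl
    obtain ⟨M', u', b1, b2⟩ := hN z z1 z2 z3 (b - a)
    refine ⟨o', u', M', ρ', b1, a1, a2, fun w w1 w2 w3 => ?_⟩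
    obtain ⟨c1, c2, -⟩ := b2 w w1 w3
    obtain ⟨f1, f2, f3⟩ := a4 w w2 c1 c2
    have c3 := (b2 (c • w) (M'.smul_mem c w1)
      (by rw [real_inner_smul_left]; exact mul_nonneg a3.le w3)).2.2 f2
    exact ⟨near _ c3 _ f3, f1⟩
  refine ⟨o, u, M, ρ, δ / (2 * ρ), hs, h0, h1, by positivity, ?_, fun a ha b hb hab => ?_⟩
  · rintro _ ⟨w, w1, κ, w2, w3, k1, k2, rfl⟩
    refine near w (hH w w1 w2 w3) _ ?_
    rw [show o + κ • w - (o + w) = (κ - 1) • w by module, norm_smul, w2, Real.norm_eq_abs,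
      abs_of_nonneg (by linarith)]
    exact kk κ k2
  · by_cases hl : ⟪b - o, b - a⟫ ≤ ‖b - a‖ ^ 2 / 2
    · exact Or.inl (one a b hb hab hl)
    · refine Or.inr (one b a ha hab.symm ?_)
      have e1 : ⟪a - o, a - b⟫ = ‖b - a‖ ^ 2 - ⟪b - o, b - a⟫ := by
        rw [← real_inner_self_eq_norm_sq, ← inner_sub_left, ← neg_sub b a, inner_neg_right,
          ← inner_neg_left]
        exact congrArg (fun x => ⟪x, b - a⟫) (by abel)
      rw [e1, norm_sub_rev a b]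
      linarith [not_le.1 hl]

theorem drop {d : ℕ} (M : Submodule ℝ (E d)) (z : E d) :
    finrank ℝ M ≤ finrank ℝ (M ⊓ (Submodule.span ℝ {z})ᗮ : Submodule ℝ (E d)) + 1 := by
  have h1 := Submodule.finrank_sup_add_finrank_inf_eq M (Submodule.span ℝ {z})ᗮ
  have h2 := Submodule.finrank_add_finrank_orthogonal (Submodule.span ℝ ({z} : Set (E d)))
  have h3 := Submodule.finrank_le (M ⊔ (Submodule.span ℝ {z})ᗮ)
  have h4 : finrank ℝ (Submodule.span ℝ ({z} : Set (E d))) ≤ 1 := by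
    simpa using finrank_span_le_card (R := ℝ) ({z} : Set (E d))
  omega

theorem cpt {d : ℕ} (M : Submodule ℝ (E d)) (ρ : ℝ) {C : Set (E d)} (hC : IsClosed C) :
    IsCompact (sphere (0 : E d) ρ ∩ ((M : Set (E d)) ∩ C)) :=
  (isCompact_sphere _ _).inter_right (M.closed_of_finiteDimensional.inter hC)

theorem sMove : SMove := by
  refine ⟨fun d s B hB ⟨o, u, M, ρ, a1, a2, a3, a4⟩ => ?_,
    fun d m B hB ⟨o, V, ρ, y₀, a1, a2, a3, a4⟩ => ?_⟩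
  · have hρ2 : 0 < 2 * ρ ^ 2 := by positivity
    have lam : 0 ≤ 1 - 1 / (2 * ρ ^ 2) := by
      rw [sub_nonneg, div_le_one hρ2]
      linarith
    refine gen hB (o := o) (u := u) a1 a2 a3
      (cpt M ρ (C := {w | 0 ≤ ⟪w, u⟫}) (isClosed_le continuous_const (by fun_prop)))
      (fun w hw => a4 w hw.2.1 (mem_sphere_zero_iff_norm.1 hw.1) hw.2.2)
      (fun w w1 w2 w3 => ⟨mem_sphere_zero_iff_norm.2 w2, w1, w3⟩) fun z z1 z2 z3 e => ?_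
    refine ⟨(M ⊓ (Submodule.span ℝ {z})ᗮ) ⊓ (Submodule.span ℝ {e})ᗮ, u, ?_, fun w hw w3 => ?_⟩
    · have h1 := drop M z
      have h2 := drop (M ⊓ (Submodule.span ℝ {z})ᗮ) e
      omega
    · refine ⟨Submodule.mem_orthogonal_singleton_iff_inner_left.1 hw.1.2,
        (Submodule.mem_orthogonal_singleton_iff_inner_left.1 hw.2).ge, fun hn =>
        ⟨mem_sphere_zero_iff_norm.2 hn, M.add_mem (M.smul_mem _ z1) hw.1.1, ?_⟩⟩
      show 0 ≤ ⟪(1 - 1 / (2 * ρ ^ 2)) • z + w, u⟫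
      rw [inner_add_left, real_inner_smul_left]
      exact add_nonneg (mul_nonneg lam z3) w3
  · have r1 : 387 / 500 ≤ ρ := by nlinarith
    refine gen hB (o := o) (u := o - y₀) a1 a2 (by linarith)
      (cpt V ρ (C := {w | 1 / 8 ≤ ‖o + w - y₀‖}) (isClosed_le continuous_const (by fun_prop)))
      (fun w hw => a4 (o + w) ⟨by rw [add_sub_cancel_left]; exact hw.2.1,
        by rw [add_sub_cancel_left]; exact mem_sphere_zero_iff_norm.1 hw.1⟩ hw.2.2)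
      (fun w w1 w2 w3 => ⟨mem_sphere_zero_iff_norm.2 w2, w1, ?_⟩) fun z z1 z2 z3 e => ?_
    · show 1 / 8 ≤ ‖o + w - y₀‖
      have e1 := real_inner_le_norm w (o + w - y₀)
      rw [show o + w - y₀ = o - y₀ + w by abel] at e1 ⊢
      rw [inner_add_right, real_inner_self_eq_norm_sq, w2] at e1
      by_contra hc
      have hc' := mul_lt_mul_of_pos_left (not_le.1 hc) a2
      nlinarith
    · refine ⟨V ⊓ (Submodule.span ℝ {z})ᗮ, e, ?_, fun w hw w3 => ?_⟩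
      · have h1 := drop V z
        omega
      · have w2 : ⟪w, z⟫ = 0 := Submodule.mem_orthogonal_singleton_iff_inner_left.1 hw.2
        refine ⟨w2, w3, fun hn =>
          ⟨mem_sphere_zero_iff_norm.2 hn, V.add_mem (V.smul_mem _ z1) hw.1, ?_⟩⟩
        show 1 / 8 ≤ ‖o + ((1 - 1 / (2 * ρ ^ 2)) • z + w) - y₀‖
        have e1 := real_inner_le_norm z (o + ((1 - 1 / (2 * ρ ^ 2)) • z + w) - y₀)
        rw [show o + ((1 - 1 / (2 * ρ ^ 2)) • z + w) - y₀ =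
          o - y₀ + ((1 - 1 / (2 * ρ ^ 2)) • z + w) by abel] at e1 ⊢
        rw [inner_add_right, inner_add_right, real_inner_smul_right, real_inner_comm w z, w2,
          real_inner_self_eq_norm_sq, z2] at e1
        have e2 : (1 - 1 / (2 * ρ ^ 2)) * ρ ^ 2 = ρ ^ 2 - 1 / 2 := by field_simp
        by_contra hc
        have hc' := mul_lt_mul_of_pos_left (not_le.1 hc) a2
        nlinarith

end Pool.Agent.MP_66cee2_co.Q.H85
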