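import Pool.Agent.MP_66cee2_co.TR.Spec

/-
The topological theorem in the quadratic range: repeated steps on hemispheres.
-/

namespace Pool.Agent.MP_66cee2_co.Q

open Set Metric Module Pool.Agent.MP_66cee2_co.X Pool.Agent.MP_66cee2_co.D
open Pool.Agent.MP_66cee2_co.TR
open scoped RealInnerProductSpace

/-! ### Topology -/

/-- the cylinder over the unit ball. -/
def Cyl (F : Type) [NormedAddCommGroup F] : Set (F × ℝ) := {p | ‖p.1‖ ≤ 1 ∧ p.2 ∈ Icc (0 : ℝ) 1}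

/-- row Br: a common zero in the cylinder. -/
def SBr : Prop :=
  ∀ (F : Type) [NormedAddCommGroup F] [InnerProductSpace ℝ F] [FiniteDimensional ℝ F]
    (G : F × ℝ → F) (g : F × ℝ → ℝ), Continuous G → Continuous g →
    (∀ p ∈ Cyl F, ‖p.1‖ = 1 → 0 ≤ ⟪G p, p.1⟫) → (∀ p ∈ Cyl F, p.2 = 0 → 0 < g p) →
    (∀ p ∈ Cyl F, p.2 = 1 → g p < 0) → ∃ p ∈ Cyl F, G p = 0 ∧ g p = 0

/-- row Gen: general position. -/
def SGen : Prop :=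
  ∀ (F : Type) [NormedAddCommGroup F] [InnerProductSpace ℝ F] [FiniteDimensional ℝ F]
    (C : Finset F) (k : ℕ), k < finrank ℝ F →
    Dense {c : F | ∀ T ⊆ C, T.card ≤ k → c ∉ Submodule.span ℝ (T : Set F)}

/-- row Piece: a field with finitely many directions. -/
def SPiece : Prop :=
  ∀ (F : Type) [NormedAddCommGroup F] [InnerProductSpace ℝ F] [FiniteDimensional ℝ F]
    (Z : Set (F × ℝ)) (A : Set F), IsCompact Z → Dense A → (∀ c ∈ A, c ≠ 0) →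
    (∀ S ⊆ Z, IsPreconnected S → ∀ p ∈ S, ∀ q ∈ S, ‖p.1‖ = 1 → ‖q.1‖ = 1 → 0 < ⟪p.1, q.1⟫) →
    ∃ (C : Finset F) (h : F × ℝ → F), Continuous h ∧ (∀ c ∈ C, c ∈ A) ∧ (∀ p ∈ Z, h p ≠ 0) ∧
      (∀ p, h p = 0 ∨ ∃ c ∈ C, ∃ t : ℝ, 0 < t ∧ h p = t • c) ∧
      ∀ p, ‖p.1‖ = 1 → 0 ≤ ⟪h p, p.1⟫

/-- row Leb: a high level set joins the two ends of the cylinder. -/
def SLeb : Prop :=
  ∀ (F : Type) [NormedAddCommGroup F] [InnerProductSpace ℝ F] [FiniteDimensional ℝ F]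
    (s : ℕ) (r : F × ℝ → ℕ), s ≤ finrank ℝ F → (∀ j, IsClosed {p | j ≤ r p}) → (∀ p, 1 ≤ r p) →
    (∀ (j : ℕ) (S : Set (F × ℝ)), S ⊆ Cyl F → IsPreconnected S → (∀ p ∈ S, r p = j) →
      ∀ p ∈ S, ∀ q ∈ S, ‖p.1‖ = 1 → ‖q.1‖ = 1 → 0 < ⟪p.1, q.1⟫) →
    ∃ S ⊆ Cyl F, IsPreconnected S ∧ (∀ p ∈ S, s + 1 ≤ r p) ∧
      ∃ p ∈ S, ∃ q ∈ S, p.2 = 0 ∧ q.2 = 1

/-! ### Algebra -/

/-- row Rel: a subspace of rank `k` modulo the radical; the end of the count. -/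
def SRel : Prop :=
  (∀ (n c k : ℕ) (W L : Submodule ℝ (Ix n → ℝ)), Su c W → L ≤ W →
    k + finrank ℝ (W ⊓ perp W : Submodule ℝ (Ix n → ℝ)) ≤
      finrank ℝ (L ⊔ W ⊓ perp W : Submodule ℝ (Ix n → ℝ)) → Su (c + k) (W ⊓ perp L)) ∧
  ∀ (n c : ℕ) (W : Submodule ℝ (Ix n → ℝ)), Su c W → c ≤ n + 2

/-! ### Geometry -/

/-- a thick hemisphere. -/
def Shell {d : ℕ} (o u : E d) (M : Submodule ℝ (E d)) (ρ η : ℝ) : Set (E d) :=
  {y | ∃ w ∈ M, ∃ κ : ℝ, ‖w‖ = ρ ∧ 0 ≤ ⟪w, u⟫ ∧ 1 ≤ κ ∧ κ ≤ 1 + η ∧ y = o + κ • w}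

/-- `B` contains a closed hemisphere. -/
def Hem {d : ℕ} (B : Set (E d)) (s : ℕ) : Prop :=
  ∃ (o u : E d) (M : Submodule ℝ (E d)) (ρ : ℝ), s ≤ finrank ℝ M ∧ 0 < ρ ∧ 1 / 2 < ρ ^ 2 ∧
    ∀ w ∈ M, ‖w‖ = ρ → 0 ≤ ⟪w, u⟫ → o + w ∈ B

/-- `B` contains a large sphere up to a small ball. -/
def InvQ {d : ℕ} (B : Set (E d)) (m : ℕ) : Prop :=
  ∃ (o : E d) (V : Submodule ℝ (E d)) (ρ : ℝ) (y₀ : E d), m ≤ finrank ℝ V ∧ 0 < ρ ∧
    3 / 5 ≤ ρ ^ 2 ∧ ∀ y ∈ Sph o V ρ, 1 / 8 ≤ ‖y - y₀‖ → y ∈ B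

/-- `B` contains a thick hemisphere whose lunes contain smaller hemispheres. -/
def Rdy {d : ℕ} (B : Set (E d)) (s s' : ℕ) : Prop :=
  ∃ (o u : E d) (M : Submodule ℝ (E d)) (ρ η : ℝ), s ≤ finrank ℝ M ∧ 0 < ρ ∧ 1 / 2 < ρ ^ 2 ∧
    0 < η ∧ Shell o u M ρ η ⊆ B ∧ ∀ a ∈ Shell o u M ρ η, ∀ b ∈ Shell o u M ρ η, a ≠ b →
      Hem (B ∩ Lune a b) s' ∨ Hem (B ∩ Lune b a) s'

/-- row Move: the next hemisphere. -/
def SMove : Prop :=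
  (∀ (d s : ℕ) (B : Set (E d)), IsOpen B → Hem B s → Rdy B s (s - 2)) ∧
  ∀ (d m : ℕ) (B : Set (E d)), IsOpen B → InvQ B m → Rdy B m (m - 1)

/-- row Fold: a continuum in the thick hemisphere. -/
def SFold : Prop :=
  ∀ (d n c s : ℕ) (O : (Ix n → ℝ) → Set (E d)) (B : Set (E d)) (W : Submodule ℝ (Ix n → ℝ))
    (o u : E d) (M : Submodule ℝ (E d)) (ρ η : ℝ), Fam O → IsOpen B → Lab O B W → Su c W →
    1 ≤ s → s ≤ finrank ℝ M → 0 < ρ → 1 / 2 < ρ ^ 2 → 0 < η → Shell o u M ρ η ⊆ B →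
    ∃ (W' : Submodule ℝ (Ix n → ℝ)), ∃ a ∈ Shell o u M ρ η, ∃ b ∈ Shell o u M ρ η, a ≠ b ∧
      Su (c + s) W' ∧ Lab O (B ∩ Lune a b) W' ∧ Lab O (B ∩ Lune b a) W'

/-- row Sec: the first two steps. -/
def SSec : Prop :=
  ∀ (d n : ℕ) (O : (Ix n → ℝ) → Set (E d)), 3 ≤ d → Fam O →
    ∃ (B : Set (E d)) (W : Submodule ℝ (Ix n → ℝ)), IsOpen B ∧ Lab O B W ∧ Su (d + 2) W ∧
      InvQ B (d - 1)

/-- the topological theorem in the quadratic range. -/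
def STQ : Prop :=
  ∀ (d n : ℕ) (O : (Ix n → ℝ) → Set (E d)), 3 ≤ d → 4 * n + 7 ≤ d ^ 2 + 6 * d → ¬ Fam O

theorem sTQ_of (h1 : SRel) (h2 : SMove) (h3 : SFold) (h4 : SSec) : STQ := by
  intro d n O hd hn hO
  have step : ∀ (c s s' : ℕ) (B : Set (E d)) (W : Submodule ℝ (Ix n → ℝ)), 1 ≤ s → IsOpen B →
      Lab O B W → Su c W → Rdy B s s' → ∃ (B' : Set (E d)) (W' : Submodule ℝ (Ix n → ℝ)),
        IsOpen B' ∧ Lab O B' W' ∧ Su (c + s) W' ∧ Hem B' s' := by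
    intro c s s' B W hs hB hL hS ⟨o, u, M, ρ, η, a1, a2, a3, a4, a5, a6⟩
    obtain ⟨W', a, ha, b, hb, ab, b1, b2, b3⟩ :=
      h3 d n c s O B W o u M ρ η hO hB hL hS hs a1 a2 a3 a4 a5
    rcases a6 a ha b hb ab with h | h
    · exact ⟨_, W', hB.inter (isOpen_lune a b), b2, b1, h⟩
    · exact ⟨_, W', hB.inter (isOpen_lune b a), b3, b1, h⟩
  have main : ∀ (s c : ℕ) (B : Set (E d)) (W : Submodule ℝ (Ix n → ℝ)), IsOpen B → Lab O B W →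
      Su c W → Hem B s → 4 * c + (s + 1) ^ 2 ≤ 4 * n + 11 := by
    intro s
    induction s using Nat.strong_induction_on with
    | _ s ih =>
      intro c B W hB hL hS hH
      rcases s with _ | s
      · have := h1.2 n c W hS
        omega
      · obtain ⟨B', W', b1, b2, b3, b4⟩ :=
          step c (s + 1) _ B W (by omega) hB hL hS (h2.1 d _ B hB hH)
        rcases s with _ | s
        · have := h1.2 n _ W' b3
          omega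
        · have := ih _ (by omega) _ B' W' b1 b2 b3 b4
          rw [show s + 1 + 1 - 2 = s by omega] at this
          nlinarith
  obtain ⟨B, W, b1, b2, b3, b4⟩ := h4 d n O hd hO
  obtain ⟨B', W', c1, c2, c3, c4⟩ :=
    step (d + 2) (d - 1) _ B W (by omega) b1 b2 b3 (h2.2 d _ B b1 b4)
  have := main _ _ B' W' c1 c2 c3 c4
  obtain ⟨e, rfl⟩ : ∃ e, d = e + 2 := ⟨d - 2, by omega⟩
  rw [show e + 2 - 1 - 1 = e by omega, show e + 2 - 1 = e + 1 by omega] at this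
  nlinarith

end Pool.Agent.MP_66cee2_co.Q
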